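import Pool.Agent.BNC.Defs

/-! # A: labels -/

namespace Pool.Agent.BNC

/-! ### the numbers `pick` -/

theorem pick_spec {lo w : ℝ} (hw : 0 < w) (j : ℕ) :
    lo < pick lo w j ∧ pick lo w j < lo + w ∧
      ∃ q : ℚ, pick lo w j = (q : ℝ) + ((j : ℝ) + 1) * √2 := by
  have h := Classical.choose_spec (exists_rat_btwn
      (show lo - ((j : ℝ) + 1) * √2 < lo + w - ((j : ℝ) + 1) * √2 by linarith))
  unfold pick
  rw [dif_pos hw]
  refine ⟨by linarith [h.1], by linarith [h.2], _, rfl⟩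

theorem wid_pos (c : List (List ℕ)) (k : ℕ) : 0 < wid c k := by
  unfold wid
  split_ifs
  · positivity
  · norm_num

theorem sqrt2_inj {q q' : ℚ} {j j' : ℕ}
    (h : (q : ℝ) + ((j : ℝ) + 1) * √2 = (q' : ℝ) + ((j' : ℝ) + 1) * √2) : j = j' := by
  by_contra hne
  have h2 : Irrational (√2) := irrational_sqrt_two
  apply h2
  have hj : ((j : ℝ) - j') ≠ 0 := by
    intro h0
    apply hne
    have : (j : ℝ) = j' := by linarith
    exact_mod_cast this
  refine ⟨(q' - q) / ((j : ℚ) - j'), ?_⟩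
  push_cast
  rw [div_eq_iff hj]
  linarith

theorem lab_spec (c : List (List ℕ)) (k : ℕ) (e : List ℕ) (b : EReal) :
    lo c k b < lab c k e b ∧ lab c k e b < lo c k b + wid c k ∧
      ∃ q : ℚ, lab c k e b = (q : ℝ) + (((Encodable.encode (k :: e) : ℕ) : ℝ) + 1) * √2 :=
  pick_spec (wid_pos c k) _

theorem lt_lab_of (c : List (List ℕ)) (k : ℕ) (e : List ℕ) {b : EReal} (hb : b ≠ ⊤) :
    b < ((lab c k e b : ℝ) : EReal) := by
  by_cases h : b = ⊥
  · rw [h]; exact EReal.bot_lt_coe _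
  · have h1 := (lab_spec c k e b).1
    have h2 : b.toReal ≤ lo c k b := by
      unfold lo
      rw [if_neg h]
      exact le_trans (le_max_left _ _) (le_max_right _ _)
    rw [← EReal.coe_toReal hb h]
    exact_mod_cast lt_of_le_of_lt (by simpa using h2) (by
      rw [EReal.coe_toReal hb h]; exact h1)

theorem tgt_lt_lab (c : List (List ℕ)) (k : ℕ) (e : List ℕ) (b : EReal) :
    tgt c k < lab c k e b :=
  lt_of_le_of_lt (le_max_left _ _) (lab_spec c k e b).1

theorem lab_pos' {c : List (List ℕ)} (hc : c ≠ []) (k : ℕ) (e : List ℕ) (b : EReal) :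
    0 < lab c k e b := by
  refine lt_of_le_of_lt ?_ (lab_spec c k e b).1
  unfold lo
  rw [if_neg hc]
  exact le_trans (le_max_right _ _) (le_max_right _ _)

/-! ### the labels -/

theorem L_nil (c : List (List ℕ)) : L c [] = ⊥ := by
  cases c <;> rfl

theorem L_root_cons (k : ℕ) (e : List ℕ) :
    L [] (k :: e) = ((lab [] k e (L [] e) : ℝ) : EReal) := rfl

theorem L_cons_cons (σ : List ℕ) (c : List (List ℕ)) (k : ℕ) (e : List ℕ) :
    L (σ :: c) (k :: e) =
      if L c (k :: e) = ⊤ then ⊤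
      else if k :: e = σ ∨ L c (k :: e) < L c σ then ⊥
      else if L (σ :: c) e = ⊤ ∨ (L (σ :: c) e = ⊥ ∧ cx (k :: e) ≤ cx σ) then ⊤
      else ((lab (σ :: c) k e (L (σ :: c) e) : ℝ) : EReal) := rfl

theorem L_cases (σ : List ℕ) (c : List (List ℕ)) (k : ℕ) (e : List ℕ) :
    (L c (k :: e) = ⊤ ∧ L (σ :: c) (k :: e) = ⊤) ∨
    (L c (k :: e) ≠ ⊤ ∧ (k :: e = σ ∨ L c (k :: e) < L c σ) ∧ L (σ :: c) (k :: e) = ⊥) ∨
    (L c (k :: e) ≠ ⊤ ∧ ¬ (k :: e = σ ∨ L c (k :: e) < L c σ) ∧ L (σ :: c) (k :: e) = ⊤) ∨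
    (L c (k :: e) ≠ ⊤ ∧ ¬ (k :: e = σ ∨ L c (k :: e) < L c σ) ∧ L (σ :: c) e ≠ ⊤ ∧
      (L (σ :: c) e = ⊥ → cx σ < cx (k :: e)) ∧
      L (σ :: c) (k :: e) = ((lab (σ :: c) k e (L (σ :: c) e) : ℝ) : EReal)) := by
  rw [L_cons_cons]
  by_cases h1 : L c (k :: e) = ⊤
  · left
    rw [if_pos h1]
    exact ⟨h1, rfl⟩
  · right
    rw [if_neg h1]
    by_cases h2 : k :: e = σ ∨ L c (k :: e) < L c σ
    · left
      rw [if_pos h2]
      exact ⟨h1, h2, rfl⟩
    · right
      rw [if_neg h2]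
      by_cases h3 : L (σ :: c) e = ⊤ ∨ (L (σ :: c) e = ⊥ ∧ cx (k :: e) ≤ cx σ)
      · left
        rw [if_pos h3]
        exact ⟨h1, h2, rfl⟩
      · right
        rw [if_neg h3]
        push Not at h3
        exact ⟨h1, h2, h3.1, h3.2, rfl⟩

theorem root_ne_top (τ : List ℕ) : L [] τ ≠ ⊤ := by
  cases τ with
  | nil => rw [L_nil]; exact bot_ne_top
  | cons k e => rw [L_root_cons]; exact EReal.coe_ne_top _

/-- strict increase and raw elements -/
theorem raw_of_lt {σ : List ℕ} {c : List (List ℕ)} {τ : List ℕ} (h : L c τ < L c σ) :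
    L (σ :: c) τ = ⊥ := by
  cases τ with
  | nil => exact L_nil _
  | cons k e =>
    rw [L_cons_cons, if_neg (ne_top_of_lt h), if_pos (Or.inr h)]

theorem raw_self {σ : List ℕ} {c : List (List ℕ)} (h : L c σ ≠ ⊤) : L (σ :: c) σ = ⊥ := by
  cases σ with
  | nil => exact L_nil _
  | cons k e => rw [L_cons_cons, if_neg h, if_pos (Or.inl rfl)]

/-- the basic monotonicity properties of the labels of a valid cell -/
theorem mono_step : ∀ (c : List (List ℕ)), Valid c → ∀ (k : ℕ) (e : List ℕ),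
    L c e ≤ L c (k :: e) ∧ (L c (k :: e) ≠ ⊥ → L c (k :: e) ≠ ⊤ → L c e < L c (k :: e)) := by
  intro c
  induction c with
  | nil =>
    intro _ k e
    rw [L_root_cons]
    have := lt_lab_of [] k e (root_ne_top e)
    exact ⟨this.le, fun _ _ => this⟩
  | cons σ c ih =>
    intro hv k e
    have hvc := hv.1
    rcases L_cases σ c k e with ⟨h1, h2⟩ | ⟨h1, h2, h3⟩ | ⟨h1, h2, h3⟩ | ⟨h1, h2, h3, h4, h5⟩
    · rw [h2]
      exact ⟨le_top, fun _ h => absurd rfl h⟩
    · rw [h3]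
      refine ⟨?_, fun h => absurd rfl h⟩
      have hlt : L c e < L c σ := by
        rcases h2 with h2 | h2
        · rw [← h2]
          exact (ih hvc k e).2 (by rw [h2]; exact hv.2.1) h1
        · exact lt_of_le_of_lt (ih hvc k e).1 h2
      rw [raw_of_lt hlt]
    · rw [h3]
      exact ⟨le_top, fun _ h => absurd rfl h⟩
    · rw [h5]
      have := lt_lab_of (σ :: c) k e h3
      exact ⟨this.le, fun _ _ => this⟩

theorem L_mono_cons {c : List (List ℕ)} (hc : Valid c) (k : ℕ) (e : List ℕ) :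
    L c e ≤ L c (k :: e) := (mono_step c hc k e).1

theorem L_strict_cons {c : List (List ℕ)} (hc : Valid c) {k : ℕ} {e : List ℕ}
    (h : L c (k :: e) ≠ ⊥) (h' : L c (k :: e) ≠ ⊤) : L c e < L c (k :: e) :=
  (mono_step c hc k e).2 h h'

theorem L_mono {c : List (List ℕ)} (hc : Valid c) {σ τ : List ℕ} (h : σ <:+ τ) :
    L c σ ≤ L c τ := by
  obtain ⟨l, rfl⟩ := h
  induction l with
  | nil => exact le_rfl
  | cons k l ih => exact ih.trans (L_mono_cons hc k _)

theorem raw_iff {σ : List ℕ} {c : List (List ℕ)} (hv : Valid (σ :: c)) (τ : List ℕ) :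
    L (σ :: c) τ = ⊥ ↔ τ = σ ∨ L c τ < L c σ := by
  constructor
  · intro h
    cases τ with
    | nil => right; rw [L_nil]; exact bot_lt_iff_ne_bot.mpr hv.2.1
    | cons k e =>
      rcases L_cases σ c k e with ⟨h1, h2⟩ | ⟨h1, h2, h3⟩ | ⟨h1, h2, h3⟩ | ⟨h1, h2, h3, h4, h5⟩
      · rw [h] at h2; exact absurd h2 bot_ne_top
      · exact h2
      · rw [h] at h3; exact absurd h3 bot_ne_top
      · rw [h] at h5; exact absurd h5 (EReal.coe_ne_bot _).symm
  · rintro (h | h)
    · rw [h]; exact raw_self hv.2.2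
    · exact raw_of_lt h

theorem ne_top_of_step {σ : List ℕ} {c : List (List ℕ)} {τ : List ℕ}
    (h : L (σ :: c) τ ≠ ⊤) : L c τ ≠ ⊤ := by
  cases τ with
  | nil => rw [L_nil]; exact bot_ne_top
  | cons k e =>
    intro h1
    apply h
    rw [L_cons_cons, if_pos h1]

/-- positivity of the labels -/
theorem pos_of_real {c : List (List ℕ)} (hc : c ≠ []) {τ : List ℕ} (h : L c τ ≠ ⊥) :
    0 < L c τ := by
  cases c with
  | nil => exact absurd rfl hc
  | cons σ c =>
    cases τ with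
    | nil => exact absurd (L_nil _) h
    | cons k e =>
      rcases L_cases σ c k e with ⟨h1, h2⟩ | ⟨h1, h2, h3⟩ | ⟨h1, h2, h3⟩ | ⟨h1, h2, h3, h4, h5⟩
      · rw [h2]; exact EReal.zero_lt_top
      · exact absurd h3 h
      · rw [h3]; exact EReal.zero_lt_top
      · rw [h5]; exact_mod_cast lab_pos' (List.cons_ne_nil σ c) k e _

/-- labelled elements have larger complexity than the last pin -/
theorem cx_of_real {σ : List ℕ} {c : List (List ℕ)} {τ : List ℕ} (h : L (σ :: c) τ ≠ ⊥)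
    (h' : L (σ :: c) τ ≠ ⊤) : cx σ < cx τ := by
  induction τ with
  | nil => exact absurd (L_nil _) h
  | cons k e ih =>
    rcases L_cases σ c k e with ⟨h1, h2⟩ | ⟨h1, h2, h3⟩ | ⟨h1, h2, h3⟩ | ⟨h1, h2, h3, h4, h5⟩
    · exact absurd h2 h'
    · exact absurd h3 h
    · exact absurd h3 h'
    · by_cases hb : L (σ :: c) e = ⊥
      · exact h4 hb
      · have := ih hb h3
        simp only [cx]
        omega

theorem val_of_real {c : List (List ℕ)} {τ : List ℕ} (h : L c τ ≠ ⊥) (h' : L c τ ≠ ⊤) :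
    ∃ q : ℚ, L c τ =
      (((q : ℝ) + (((Encodable.encode τ : ℕ) : ℝ) + 1) * √2 : ℝ) : EReal) := by
  cases τ with
  | nil => exact absurd (L_nil _) h
  | cons k e =>
    cases c with
    | nil =>
      rw [L_root_cons]
      obtain ⟨q, hq⟩ := (lab_spec [] k e (L [] e)).2.2
      exact ⟨q, by rw [hq]⟩
    | cons σ c =>
      rcases L_cases σ c k e with ⟨h1, h2⟩ | ⟨h1, h2, h3⟩ | ⟨h1, h2, h3⟩ | ⟨h1, h2, h3, h4, h5⟩
      · exact absurd h2 h'
      · exact absurd h3 h
      · exact absurd h3 h'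
      · rw [h5]
        obtain ⟨q, hq⟩ := (lab_spec (σ :: c) k e (L (σ :: c) e)).2.2
        exact ⟨q, by rw [hq]⟩

/-- labels are pairwise different -/
theorem L_inj {c : List (List ℕ)} {τ τ' : List ℕ} (h : L c τ ≠ ⊥) (h' : L c τ ≠ ⊤)
    (he : L c τ = L c τ') : τ = τ' := by
  obtain ⟨q, hq⟩ := val_of_real h h'
  obtain ⟨q', hq'⟩ := val_of_real (by rwa [← he]) (by rwa [← he] : L c τ' ≠ ⊤)
  rw [hq, hq', EReal.coe_eq_coe_iff] at he
  exact Encodable.encode_injective (sqrt2_inj he)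

/-- pins are raw -/
theorem pin_raw : ∀ (c : List (List ℕ)), Valid c → ∀ π ∈ c, L c π = ⊥ := by
  intro c
  induction c with
  | nil => intro _ π h; exact absurd h List.not_mem_nil
  | cons σ c ih =>
    intro hv π hπ
    rcases List.mem_cons.mp hπ with h | h
    · rw [h]; exact raw_self hv.2.2
    · apply raw_of_lt
      rw [ih hv.1 π h]
      exact bot_lt_iff_ne_bot.mpr hv.2.1

theorem not_mem_of_real {c : List (List ℕ)} (hc : Valid c) {τ : List ℕ} (h : L c τ ≠ ⊥) :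
    τ ∉ c := fun hm => h (pin_raw c hc τ hm)

/-- the pins of a valid cell have smaller complexity than the labelled elements -/
theorem cx_pin_lt : ∀ (c : List (List ℕ)), Valid c → ∀ π ∈ c, ∀ τ, L c τ ≠ ⊥ → L c τ ≠ ⊤ →
    cx π < cx τ := by
  intro c
  induction c with
  | nil => intro _ π h; exact absurd h List.not_mem_nil
  | cons σ c ih =>
    intro hv π hπ τ h h'
    have h1 := cx_of_real h h'
    rcases List.mem_cons.mp hπ with h2 | h2
    · rw [h2]; exact h1
    · exact (ih hv.1 π h2 σ hv.2.1 hv.2.2).trans h1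

theorem pin_le_head {σ : List ℕ} {c : List (List ℕ)} (hv : Valid (σ :: c)) {π : List ℕ}
    (hπ : π ∈ σ :: c) : cx π ≤ cx σ := by
  rcases List.mem_cons.mp hπ with h2 | h2
  · rw [h2]
  · exact (cx_pin_lt c hv.1 π h2 σ hv.2.1 hv.2.2).le

/-! ### the two consequences used elsewhere -/

theorem lab_pos {σ : List ℕ} {c : List (List ℕ)} (h : Valid (σ :: c)) (hc : c ≠ []) :
    0 < (L c σ).toReal := by
  have h1 := pos_of_real hc h.2.1
  rw [← EReal.coe_toReal h.2.2 h.2.1] at h1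
  exact_mod_cast h1

theorem lab_inj {σ σ' : List ℕ} {c : List (List ℕ)} (h : Valid (σ :: c))
    (h' : Valid (σ' :: c)) (he : (L c σ).toReal = (L c σ').toReal) : σ = σ' := by
  apply L_inj h.2.1 h.2.2
  rw [← EReal.coe_toReal h.2.2 h.2.1, ← EReal.coe_toReal h'.2.2 h'.2.1, he]

theorem cx_pos {σ : List ℕ} {c : List (List ℕ)} (h : Valid (σ :: c)) : 0 < cx σ := by
  cases σ with
  | nil => exact absurd (L_nil _) h.2.1
  | cons k e => simp only [cx]; omega

theorem cx_lt {σ π : List ℕ} {c : List (List ℕ)} (h : Valid (σ :: π :: c)) : cx π < cx σ :=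
  cx_of_real h.2.1 h.2.2

end Pool.Agent.BNC
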