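import Pool.Agent.BNC.A

/-! # A2: density of the labels -/

namespace Pool.Agent.BNC

/-- all pinned values are at most `P` -/
def bnd : List (List ℕ) → ℝ → Prop
  | [], _ => True
  | σ :: c, P => bnd c P ∧ (L c σ).toReal ≤ P

theorem bnd_mono : ∀ (c : List (List ℕ)) {P Q : ℝ}, P ≤ Q → bnd c P → bnd c Q := by
  intro c
  induction c with
  | nil => intro P Q _ _; trivial
  | cons σ c ih => intro P Q h hb; exact ⟨ih h hb.1, hb.2.trans h⟩

theorem exists_bnd : ∀ (c : List (List ℕ)), ∃ P : ℕ, bnd c P := by
  intro c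
  induction c with
  | nil => exact ⟨0, trivial⟩
  | cons σ c ih =>
    obtain ⟨P, hP⟩ := ih
    obtain ⟨n, hn⟩ := exists_nat_ge ((L c σ).toReal)
    refine ⟨max P n, bnd_mono c (by exact_mod_cast le_max_left P n) hP, hn.trans ?_⟩
    exact_mod_cast le_max_right P n

theorem exists_cx_bnd (c : List (List ℕ)) : ∃ M : ℕ, ∀ π ∈ c, cx π ≤ M := by
  induction c with
  | nil => exact ⟨0, fun π h => absurd h List.not_mem_nil⟩
  | cons σ c ih =>
    obtain ⟨M, hM⟩ := ih
    refine ⟨max M (cx σ), fun π h => ?_⟩
    rcases List.mem_cons.mp h with h | h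
    · rw [h]; exact le_max_right _ _
    · exact (hM π h).trans (le_max_left _ _)

theorem real_child : ∀ (c : List (List ℕ)), Valid c → ∀ (P : ℝ), bnd c P → ∀ e, L c e ≠ ⊤ →
    ∀ k, (∀ π ∈ c, cx π < cx (k :: e)) → (∀ c', c' <:+ c → c' ≠ c → P ≤ tgt c' k) →
    L c (k :: e) = ((lab c k e (L c e) : ℝ) : EReal) := by
  intro c
  induction c with
  | nil => intro _ P _ e _ k _ _; exact L_root_cons k e
  | cons σ c ih =>
    intro hv P hb e he k hπ hP
    have hne : c ≠ σ :: c := fun h => by
      have := congrArg List.length h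
      simp at this
    have hc := ih hv.1 P hb.1 e (ne_top_of_step he) k
      (fun π h => hπ π (List.mem_cons_of_mem _ h))
      (fun c' h h' => hP c' (h.trans (List.suffix_cons σ c)) (fun h'' => by
        have h1 := h.length_le
        rw [h''] at h1
        simp at h1))
    have h1 : L c (k :: e) ≠ ⊤ := by rw [hc]; exact EReal.coe_ne_top _
    have h2 : ¬ (k :: e = σ ∨ L c (k :: e) < L c σ) := by
      rintro (h | h)
      · have := hπ σ List.mem_cons_self
        rw [h] at this
        exact lt_irrefl _ this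
      · rw [hc, ← EReal.coe_toReal hv.2.2 hv.2.1, EReal.coe_lt_coe_iff] at h
        have h3 := hP c (List.suffix_cons σ c) hne
        have h4 := tgt_lt_lab c k e (L c e)
        linarith [hb.2]
    have h3 : ¬ (L (σ :: c) e = ⊤ ∨ (L (σ :: c) e = ⊥ ∧ cx (k :: e) ≤ cx σ)) := by
      rintro (h | h)
      · exact he h
      · have := hπ σ List.mem_cons_self
        omega
    rw [L_cons_cons, if_neg h1, if_neg h2, if_neg h3]

/-- every code is attained by arbitrarily large numbers -/
theorem exists_dec (C : Code) (M : ℕ) : ∃ k, M ≤ k ∧ dec k = C := by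
  refine ⟨Nat.pair (Encodable.encode C) M, Nat.right_le_pair _ _, ?_⟩
  unfold dec
  rw [Nat.unpair_pair]
  simp [Encodable.encodek]

/-- DENSITY: an element `e` of `c` has a child with large complexity, with a label in a given
window, and with given data. -/
theorem dense_labels {c : List (List ℕ)} (hc : Valid c) {e : List ℕ} (he : L c e ≠ ⊤)
    {a b : ℝ} (hab : a < b) (ha : L c e ≤ a) (ha0 : c ≠ [] → 0 ≤ a) (N i : ℕ) (ρ : ℚ) :
    ∃ k, N < cx (k :: e) ∧ (a : EReal) < L c (k :: e) ∧ L c (k :: e) < (b : EReal) ∧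
      (dec k).2.2.2.2 = (i, ρ) := by
  obtain ⟨P, hP⟩ := exists_bnd c
  obtain ⟨M, hM⟩ := exists_cx_bnd c
  obtain ⟨p, hp1, hp2⟩ := exists_rat_btwn hab
  obtain ⟨m, hm⟩ := exists_nat_one_div_lt (sub_pos.mpr hp2)
  obtain ⟨k, hk, hdec⟩ := exists_dec (c, P, p, m, i, ρ) (max N M)
  have hcx : max N M < cx (k :: e) := by
    simp only [cx]; omega
  have hreal := real_child c hc P hP e he k
    (fun π h => lt_of_le_of_lt ((hM π h).trans (le_max_right _ _)) hcx)
    (fun c' h h' => by
      unfold tgt
      rw [hdec]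
      simp only
      rw [if_neg h'])
  have ht : tgt c k = p := by
    unfold tgt
    rw [hdec]
    simp
  have hw : wid c k = 1 / ((m : ℝ) + 1) := by
    unfold wid
    rw [hdec]
    simp
  have hlo : lo c k (L c e) = p := by
    unfold lo
    rw [ht]
    apply le_antisymm
    · refine max_le le_rfl (max_le ?_ ?_)
      · split_ifs with h
        · exact le_rfl
        · have h1 : (L c e).toReal ≤ a := by
            rw [← EReal.coe_toReal he h] at ha
            exact_mod_cast ha
          linarith
      · split_ifs with h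
        · exact le_rfl
        · linarith [ha0 h]
    · exact le_max_left _ _
  obtain ⟨h1, h2, -⟩ := lab_spec c k e (L c e)
  rw [hlo] at h1 h2
  rw [hw] at h2
  refine ⟨k, lt_of_le_of_lt (le_max_left _ _) hcx, ?_, ?_, ?_⟩
  · rw [hreal]
    exact_mod_cast hp1.trans h1
  · rw [hreal]
    exact_mod_cast (by linarith : lab c k e (L c e) < b)
  · rw [hdec]

end Pool.Agent.BNC
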