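import Pool.Agent.BNC.A2

/-! # B: values and depth functions -/

namespace Pool.Agent.BNC

/-! ### values -/

theorem val_nil (u : List ℕ → ℝ) (τ : List ℕ) : val [] u τ = u τ := rfl

theorem val_cons (σ : List ℕ) (c : List (List ℕ)) (u : List ℕ → ℝ) (τ : List ℕ) :
    val (σ :: c) u τ =
      if σ <:+ τ then (L c σ).toReal - val c u τ else val c u τ - (L c σ).toReal := rfl

theorem val_lip (c : List (List ℕ)) (u v : List ℕ → ℝ) (τ : List ℕ) :
    |val c u τ - val c v τ| = |u τ - v τ| := by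
  induction c with
  | nil => rfl
  | cons σ c ih =>
    rw [val_cons, val_cons]
    split_ifs
    · rw [← ih, abs_sub_comm (val c u τ)]
      congr 1
      ring
    · rw [← ih]
      congr 1
      ring

theorem suffix_cons_iff' {σ : List ℕ} {k : ℕ} {e : List ℕ} (h : σ ≠ k :: e) :
    σ <:+ k :: e ↔ σ <:+ e := by
  rw [List.suffix_cons_iff]
  constructor
  · rintro (h1 | h1)
    · exact absurd h1 h
    · exact h1
  · exact Or.inr

theorem val_fresh {c : List (List ℕ)} {u : List ℕ → ℝ} {k : ℕ} {e : List ℕ}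
    (hc : k :: e ∉ c) (hu : u (k :: e) = u e) : val c u (k :: e) = val c u e := by
  induction c with
  | nil => exact hu
  | cons σ c ih =>
    have h1 : σ ≠ k :: e := fun h => hc (by rw [h]; exact List.mem_cons_self)
    have h2 := ih (fun h => hc (List.mem_cons_of_mem _ h))
    rw [val_cons, val_cons, h2]
    simp only [suffix_cons_iff' h1]

/-- the sign of a node in a cell -/
noncomputable def sgn : List (List ℕ) → List ℕ → ℝ
  | [], _ => 1
  | σ :: c, τ => if σ <:+ τ then - sgn c τ else sgn c τ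

theorem sgn_abs (c : List (List ℕ)) (τ : List ℕ) : sgn c τ = 1 ∨ sgn c τ = -1 := by
  induction c with
  | nil => left; rfl
  | cons σ c ih =>
    simp only [sgn]
    split_ifs
    · rcases ih with h | h
      · right; rw [h]
      · left; rw [h]; norm_num
    · exact ih

theorem sgn_sq (c : List (List ℕ)) (τ : List ℕ) : sgn c τ * sgn c τ = 1 := by
  rcases sgn_abs c τ with h | h <;> rw [h] <;> norm_num

theorem val_add (c : List (List ℕ)) (u : List ℕ → ℝ) (w : List ℕ → ℝ) (τ : List ℕ) :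
    val c (fun τ => u τ + w τ) τ = val c u τ + sgn c τ * w τ := by
  induction c with
  | nil => simp [val, sgn]
  | cons σ c ih =>
    rw [val_cons, val_cons, ih]
    simp only [sgn]
    split_ifs <;> ring

/-- the sign is constant on the region of a node with no pins strictly inside -/
theorem sgn_const {c : List (List ℕ)} {e τ : List ℕ} (h : ∀ π ∈ c, e <:+ π → π = e)
    (ht : e <:+ τ) : sgn c τ = sgn c e := by
  induction c with
  | nil => rfl
  | cons σ c ih =>
    have h1 := ih (fun π hπ => h π (List.mem_cons_of_mem _ hπ))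
    have h2 : σ <:+ τ ↔ σ <:+ e := by
      constructor
      · intro hs
        rcases List.suffix_or_suffix_of_suffix hs ht with h3 | h3
        · exact h3
        · rw [h σ List.mem_cons_self h3]
      · exact fun h3 => h3.trans ht
    simp only [sgn, h1, h2]

/-- raising the region of `e` by `a` in the cell `c` -/
theorem val_shift {c : List (List ℕ)} {e : List ℕ} (h : ∀ π ∈ c, e <:+ π → π = e)
    (u : List ℕ → ℝ) (a : ℝ) (τ : List ℕ) :
    val c (fun τ => u τ + (sgn c e * a) * (if e <:+ τ then 1 else 0)) τ =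
      val c u τ + (if e <:+ τ then a else 0) := by
  rw [val_add]
  split_ifs with ht
  · rw [sgn_const h ht, mul_one, ← mul_assoc, sgn_sq, one_mul]
  · ring

theorem val_bdd (c : List (List ℕ)) (u : List ℕ → ℝ) (M : ℝ) (hu : ∀ τ, |u τ| ≤ M) :
    ∃ K : ℝ, ∀ τ, |val c u τ| ≤ K := by
  induction c with
  | nil => exact ⟨M, hu⟩
  | cons σ c ih =>
    obtain ⟨K, hK⟩ := ih
    refine ⟨K + |(L c σ).toReal|, fun τ => ?_⟩
    rw [val_cons]
    split_ifs
    · refine (abs_sub _ _).trans ?_
      linarith [hK τ]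
    · refine (abs_sub _ _).trans ?_
      linarith [hK τ]

/-! ### the depth function -/

/-- bounded states -/
def Bdd (u : List ℕ → ℝ) : Prop := ∃ M : ℝ, ∀ τ, |u τ| ≤ M

theorem le_F_iff {c : List (List ℕ)} {u : List ℕ → ℝ} (hu : Bdd u) (a : ℝ) :
    a ≤ F c u ↔ ∀ τ, (a : EReal) ≤ max ((val c u τ : ℝ) : EReal) (L c τ) := by
  obtain ⟨M, hM⟩ := hu
  obtain ⟨K, hK⟩ := val_bdd c u M hM
  set A : Set ℝ := {a : ℝ | ∀ τ, (a : EReal) ≤ max ((val c u τ : ℝ) : EReal) (L c τ)} with hA
  have hne : A.Nonempty := by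
    refine ⟨-K, fun τ => le_trans ?_ (le_max_left _ _)⟩
    exact_mod_cast (abs_le.mp (hK τ)).1
  have hbd : BddAbove A := by
    refine ⟨val c u [], fun a ha => ?_⟩
    have := ha []
    rw [L_nil, max_eq_left bot_le] at this
    exact_mod_cast this
  have hFA : F c u = sSup A := rfl
  constructor
  · intro h τ
    by_contra hcon
    rw [not_le] at hcon
    obtain ⟨r, hr1, hr2⟩ := EReal.lt_iff_exists_real_btwn.mp hcon
    have h1 : r < sSup A := by
      rw [← hFA]
      exact lt_of_lt_of_le (by exact_mod_cast hr2) h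
    obtain ⟨b, hb, hrb⟩ := exists_lt_of_lt_csSup hne h1
    have h2 := hb τ
    have h3 : (r : EReal) < (b : EReal) := by exact_mod_cast hrb
    exact absurd (h3.trans_le h2) (not_lt.mpr hr1.le)
  · intro h
    rw [hFA]
    exact le_csSup hbd h

theorem le_max_F {c : List (List ℕ)} {u : List ℕ → ℝ} (hu : Bdd u) (τ : List ℕ) :
    (F c u : EReal) ≤ max ((val c u τ : ℝ) : EReal) (L c τ) :=
  (le_F_iff hu _).mp le_rfl τ

theorem F_le_val {c : List (List ℕ)} {u : List ℕ → ℝ} (hu : Bdd u) {τ : List ℕ}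
    (h : L c τ < (F c u : EReal)) : F c u ≤ val c u τ := by
  have h1 := le_max_F (c := c) hu τ
  rcases le_max_iff.mp h1 with h2 | h2
  · exact_mod_cast h2
  · exact absurd h2 (not_le.mpr h)

theorem F_le_raw' {c : List (List ℕ)} {u : List ℕ → ℝ} (hu : Bdd u) {τ : List ℕ}
    (h : L c τ = ⊥) : F c u ≤ val c u τ :=
  F_le_val hu (by rw [h]; exact EReal.bot_lt_coe _)

theorem F_sub_le {c : List (List ℕ)} {u v : List ℕ → ℝ} (hu : Bdd u) (hv : Bdd v) {M : ℝ}
    (hM0 : 0 ≤ M) (hM : ∀ τ, |u τ - v τ| ≤ M) : F c u - M ≤ F c v := by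
  rw [le_F_iff hv]
  intro τ
  rcases le_max_iff.mp (le_max_F (c := c) hu τ) with h | h
  · refine le_trans ?_ (le_max_left _ _)
    have h1 : F c u ≤ val c u τ := by exact_mod_cast h
    have h2 := val_lip c u v τ
    have h3 := hM τ
    rw [← h2] at h3
    have h4 := (abs_le.mp h3).2
    exact_mod_cast (by linarith : F c u - M ≤ val c v τ)
  · refine le_trans ?_ (le_max_right _ _)
    refine le_trans ?_ h
    exact_mod_cast (by linarith : F c u - M ≤ F c u)

theorem nested' {σ : List ℕ} {c : List (List ℕ)} (hv : Valid (σ :: c)) {u : List ℕ → ℝ}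
    (hu : Bdd u) (hF : 0 < F (σ :: c) u) : F c u = (L c σ).toReal := by
  have hs : (((L c σ).toReal : ℝ) : EReal) = L c σ := EReal.coe_toReal hv.2.2 hv.2.1
  apply le_antisymm
  · -- the pin
    have h1 := F_le_raw' (c := σ :: c) hu (raw_self hv.2.2)
    rw [val_cons, if_pos List.suffix_rfl] at h1
    by_contra hcon
    rw [not_le] at hcon
    have h2 := F_le_val (c := c) (u := u) (τ := σ) hu (by rw [← hs]; exact_mod_cast hcon)
    linarith
  · rw [le_F_iff hu]
    intro τ
    by_cases hlt : L c τ < L c σ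
    · refine le_trans ?_ (le_max_left _ _)
      have h1 := F_le_raw' (c := σ :: c) hu (raw_of_lt hlt)
      have h2 : ¬ σ <:+ τ := fun h => absurd (L_mono hv.1 h) (not_le.mpr hlt)
      rw [val_cons, if_neg h2] at h1
      exact_mod_cast (by linarith : (L c σ).toReal ≤ val c u τ)
    · rw [hs]
      exact le_trans (not_lt.mp hlt) (le_max_right _ _)

/-- an active pin is not fresh -/
theorem cx_le_of_val {σ : List ℕ} {c : List (List ℕ)} (hv : Valid (σ :: c))
    {u : List ℕ → ℝ} {N : ℕ} (hN : Cx N u)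
    (hr : ∀ τ, L (σ :: c) τ = ⊥ → 0 < val (σ :: c) u τ) : cx σ ≤ N := by
  by_contra hcon
  rw [not_le] at hcon
  cases σ with
  | nil => exact absurd (L_nil _) hv.2.1
  | cons k e =>
    have h1 : k :: e ∉ c := not_mem_of_real hv.1 hv.2.1
    have h2 := val_fresh h1 (hN k e hcon)
    have h3 := hr (k :: e) (raw_self hv.2.2)
    have h4 := hr e (raw_of_lt (L_strict_cons hv.1 hv.2.1 hv.2.2))
    rw [val_cons, if_pos List.suffix_rfl] at h3
    have h5 : ¬ k :: e <:+ e := fun h => by
      have := h.length_le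
      simp at this
    rw [val_cons, if_neg h5] at h4
    linarith

theorem le_F_iff_fin {c : List (List ℕ)} (hv : Valid c) {u : List ℕ → ℝ} (hu : Bdd u) {N : ℕ}
    (hN : Cx N u) (hp : ∀ π ∈ c, cx π ≤ N) (a : ℝ) :
    a ≤ F c u ↔ ∀ τ, cx τ ≤ N → (a : EReal) ≤ max ((val c u τ : ℝ) : EReal) (L c τ) := by
  rw [le_F_iff hu]
  constructor
  · exact fun h τ _ => h τ
  · intro h τ
    induction τ with
    | nil => exact h [] (Nat.zero_le _)
    | cons k e ih =>
      by_cases hk : cx (k :: e) ≤ N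
      · exact h _ hk
      · rw [not_le] at hk
        have h1 : k :: e ∉ c := fun hm => absurd (hp _ hm) (not_le.mpr hk)
        rw [val_fresh h1 (hN k e hk)]
        exact ih.trans (max_le_max le_rfl (L_mono_cons hv k e))

theorem finite_cx (N : ℕ) : {τ : List ℕ | cx τ ≤ N}.Finite := by
  induction N using Nat.strong_induction_on with
  | _ N ih =>
    have h : {τ : List ℕ | cx τ ≤ N} ⊆
        {[]} ∪ ⋃ k ∈ Finset.range N, (fun e => k :: e) '' {e | cx e ≤ N - k - 1} := by
      intro τ hτ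
      cases τ with
      | nil => left; rfl
      | cons k e =>
        right
        simp only [Set.mem_ofPred_eq, cx] at hτ
        simp only [Set.mem_iUnion]
        exact ⟨k, Finset.mem_range.mpr (by omega), e, by simp only [Set.mem_ofPred_eq]; omega, rfl⟩
    refine Set.Finite.subset ?_ h
    refine (Set.finite_singleton _).union ?_
    refine Set.Finite.biUnion (Finset.finite_toSet _) (fun k hk => ?_)
    have hk' : k < N := by simpa using hk
    exact (ih (N - k - 1) (by omega)).image _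

/-- the depth function is attained -/
theorem attained {c : List (List ℕ)} (hv : Valid c) {u : List ℕ → ℝ} (hu : Bdd u) {N : ℕ}
    (hN : Cx N u) (hp : ∀ π ∈ c, cx π ≤ N) :
    ∃ τ, cx τ ≤ N ∧ val c u τ ≤ F c u ∧ L c τ ≤ (F c u : EReal) := by
  by_contra hcon
  push Not at hcon
  -- for all nodes `F < max (val, L)`
  have h1 : ∀ τ, cx τ ≤ N → (F c u : EReal) < max ((val c u τ : ℝ) : EReal) (L c τ) := by
    intro τ hτ
    by_cases h : val c u τ ≤ F c u
    · exact lt_of_lt_of_le (hcon τ hτ h) (le_max_right _ _)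
    · exact lt_of_lt_of_le (by exact_mod_cast not_le.mp h) (le_max_left _ _)
  have h2 : ∀ τ, cx τ ≤ N → ∃ r : ℝ, F c u < r ∧
      (r : EReal) ≤ max ((val c u τ : ℝ) : EReal) (L c τ) := by
    intro τ hτ
    obtain ⟨r, hr1, hr2⟩ := EReal.lt_iff_exists_real_btwn.mp (h1 τ hτ)
    exact ⟨r, by exact_mod_cast hr1, hr2.le⟩
  choose! r hr using h2
  obtain ⟨τ₀, hτ₀, hmin⟩ := Set.exists_min_image {τ : List ℕ | cx τ ≤ N} r (finite_cx N)
    ⟨[], Nat.zero_le _⟩
  have h3 : r τ₀ ≤ F c u := by
    rw [le_F_iff_fin hv hu hN hp]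
    intro τ hτ
    refine le_trans ?_ (hr τ hτ).2
    exact_mod_cast hmin τ hτ
  exact absurd (hr τ₀ hτ₀).1 (not_lt.mpr h3)

theorem F_pos_of_raw' {σ : List ℕ} {c : List (List ℕ)} (hv : Valid (σ :: c))
    {u : List ℕ → ℝ} (hu : Bdd u) {N : ℕ} (hN : Cx N u)
    (hr : ∀ τ, L (σ :: c) τ = ⊥ → 0 < val (σ :: c) u τ) : 0 < F (σ :: c) u := by
  have h1 := cx_le_of_val hv hN hr
  obtain ⟨τ, hτ, h2, h3⟩ := attained hv hu hN (fun π hπ => (pin_le_head hv hπ).trans h1)
  by_cases h : L (σ :: c) τ = ⊥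
  · exact (hr τ h).trans_le h2
  · have h4 := pos_of_real (List.cons_ne_nil σ c) h
    exact_mod_cast h4.trans_le h3

end Pool.Agent.BNC
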