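import Pool.Agent.BNC.Stubs

/-! # The core step -/

namespace Pool.Agent.BNC

variable {X : Type*} [NormedAddCommGroup X] [NormedSpace ℝ X]

/-- the region of `e` raised by `a` in the cell `c` -/
noncomputable def raise (c : List (List ℕ)) (e : List ℕ) (a : ℝ) (u : List ℕ → ℝ) :
    List ℕ → ℝ :=
  fun τ => u τ + (sgn c e * a) * (if e <:+ τ then 1 else 0)

theorem raise_zero (c : List (List ℕ)) (e : List ℕ) (u : List ℕ → ℝ) : raise c e 0 u = u := by
  funext τ
  simp [raise]

theorem val_raise {c : List (List ℕ)} {e : List ℕ} (h : ∀ π ∈ c, e <:+ π → π = e)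
    (u : List ℕ → ℝ) (a : ℝ) (τ : List ℕ) :
    val c (raise c e a u) τ = val c u τ + (if e <:+ τ then a else 0) :=
  val_shift h u a τ

theorem raise_Cx {c : List (List ℕ)} {e : List ℕ} {a : ℝ} {u : List ℕ → ℝ} {N : ℕ}
    (h : Cx N u) (he : cx e ≤ N) : Cx N (raise c e a u) := by
  intro k τ hk
  have h1 : e ≠ k :: τ := fun h' => by rw [h'] at he; omega
  simp only [raise, h k τ hk, suffix_cons_iff' h1]

/-- labelled nodes have no pins in their region -/
theorem no_pins {c : List (List ℕ)} (hc : Valid c) {e : List ℕ} (he : L c e ≠ ⊥) :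
    ∀ π ∈ c, e <:+ π → π = e := by
  intro π hπ hs
  have h1 := L_mono hc hs
  rw [pin_raw c hc π hπ] at h1
  exact absurd (le_bot_iff.mp h1) he

/-- preparation: the raised state -/
theorem prep {c : List (List ℕ)} (hc : Valid c) {u : List ℕ → ℝ} (hu : Bdd u) {N : ℕ}
    (hN : Cx N u) (hp : ∀ π ∈ c, cx π ≤ N) {R : ℝ} (hR : 0 < R)
    (h1 : c = [] ∨ ∀ τ, L c τ = ⊥ → 4 * R ≤ val c u τ)
    (h2 : ∀ σ, Valid (σ :: c) → ¬ ∀ τ, L (σ :: c) τ = ⊥ → 4 * R ≤ val (σ :: c) u τ) :
    ∃ (es : List ℕ) (s α : ℝ), cx es ≤ N ∧ L c es ≤ (s : EReal) ∧ (c ≠ [] → 0 ≤ s) ∧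
      F c u - R ≤ s ∧ 0 ≤ α ∧ α ≤ 8 * R ∧
      (∀ τ, cx τ ≤ N → L c τ ≤ (s : EReal) → s + R ≤ val c (raise c es α u) τ) ∧
      val c (raise c es α u) es ≤ s + 7 * R := by
  set D := F c u with hDdef
  obtain ⟨τ₀, ht1, ht2, ht3⟩ := attained hc hu hN hp
  have hfin : {e : List ℕ | cx e ≤ N ∧ L c e ≠ ⊤ ∧ val c u e ≤ D + 6 * R}.Finite :=
    (finite_cx N).subset (fun e he => he.1)
  obtain ⟨es, hes, hmin⟩ := Set.exists_min_image
    {e : List ℕ | cx e ≤ N ∧ L c e ≠ ⊤ ∧ val c u e ≤ D + 6 * R} (L c) hfin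
    ⟨τ₀, ht1, ne_top_of_le_ne_top (EReal.coe_ne_top _) ht3, by linarith⟩
  have hl : L c es ≤ (D : EReal) :=
    (hmin τ₀ ⟨ht1, ne_top_of_le_ne_top (EReal.coe_ne_top _) ht3, by linarith⟩).trans ht3
  obtain ⟨hes1, hes2, hes3⟩ := hes
  -- elements with label `< l*`
  have hlow : ∀ τ, L c τ < L c es → D + 6 * R < val c u τ := by
    intro τ
    induction τ with
    | nil =>
      intro h
      by_contra hcon
      exact absurd (hmin [] ⟨Nat.zero_le _, ne_top_of_lt h, not_lt.mp hcon⟩) (not_le.mpr h)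
    | cons k e ih =>
      intro h
      by_cases hk : cx (k :: e) ≤ N
      · by_contra hcon
        exact absurd (hmin (k :: e) ⟨hk, ne_top_of_lt h, not_lt.mp hcon⟩) (not_le.mpr h)
      · rw [not_le] at hk
        have h3 : k :: e ∉ c := fun hm => absurd (hp _ hm) (not_le.mpr hk)
        rw [val_fresh h3 (hN k e hk)]
        exact ih ((L_mono_cons hc k e).trans_lt h)
  by_cases hA : L c es ≤ ((D - R : ℝ) : EReal)
  · by_cases hA2 : c = [] ∨ 0 ≤ D - R
    · -- case A
      refine ⟨es, D - R, 0, hes1, hA, ?_, le_rfl, le_rfl, by linarith, ?_, ?_⟩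
      · intro h
        rcases hA2 with h' | h'
        · exact absurd h' h
        · exact h'
      · intro τ _ h
        rw [raise_zero]
        have h3 : L c τ < (F c u : EReal) := by
          refine lt_of_le_of_lt h ?_
          exact_mod_cast (by linarith : D - R < D)
        have h4 := F_le_val hu h3
        linarith
      · rw [raise_zero]
        linarith
    · -- case C
      push Not at hA2
      have hraw : L c es = ⊥ := by
        by_contra hne
        have h3 := pos_of_real hA2.1 hne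
        have h4 : (0 : EReal) < ((D - R : ℝ) : EReal) := h3.trans_le hA
        have h5 : (0 : ℝ) < D - R := by exact_mod_cast h4
        linarith [hA2.2]
      refine ⟨es, 0, 0, hes1, by rw [hraw]; exact bot_le, fun _ => le_rfl, by linarith [hA2.2],
        le_rfl, by linarith, ?_, ?_⟩
      · intro τ _ h
        rw [raise_zero]
        have h3 : L c τ = ⊥ := by
          by_contra hne
          have h4 := pos_of_real hA2.1 hne
          exact absurd (h4.trans_le h) (lt_irrefl _)
        rcases h1 with h4 | h4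
        · exact absurd h4 hA2.1
        · have := h4 τ h3
          linarith
      · rw [raise_zero]
        linarith [hA2.2]
  · -- case B
    rw [not_le] at hA
    have hbot : L c es ≠ ⊥ := fun h => by rw [h] at hA; exact absurd hA not_lt_bot
    obtain ⟨l, hls⟩ : ∃ l : ℝ, L c es = (l : EReal) :=
      ⟨(L c es).toReal, (EReal.coe_toReal hes2 hbot).symm⟩
    have hlD : l ≤ D := by rw [hls] at hl; exact_mod_cast hl
    have hlR : D - R < l := by rw [hls] at hA; exact_mod_cast hA
    have hv : Valid (es :: c) := ⟨hc, hbot, hes2⟩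
    have hl0 : c ≠ [] → 0 ≤ l := by
      intro h
      have h3 := pos_of_real h hbot
      rw [hls] at h3
      exact_mod_cast h3.le
    have hval : l - 4 * R ≤ val c u es := by
      by_contra hcon
      rw [not_le] at hcon
      apply h2 es hv
      intro τ hτ
      have hlr : (L c es).toReal = l := by rw [hls]; rfl
      rcases (raw_iff hv τ).mp hτ with h3 | h3
      · rw [h3, val_cons, if_pos List.suffix_rfl, hlr]
        linarith
      · have h4 : ¬ es <:+ τ := fun h => absurd (L_mono hc h) (not_le.mpr h3)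
        rw [val_cons, if_neg h4, hlr]
        have := hlow τ h3
        linarith
    have hkey : ∀ α : ℝ, 0 ≤ α → l + 4 * R ≤ val c u es + α → ∀ τ, cx τ ≤ N →
        L c τ ≤ (l : EReal) → l + R ≤ val c (raise c es α u) τ := by
      intro α hα h3 τ _ h4
      rw [val_raise (no_pins hc hbot)]
      rcases h4.lt_or_eq with h5 | h5
      · have h6 := hlow τ (by rw [hls]; exact h5)
        have h7 : (0 : ℝ) ≤ (if es <:+ τ then α else 0) := by split_ifs <;> linarith
        linarith
      · have h6 : es = τ := L_inj hbot hes2 (by rw [hls, h5])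
        rw [← h6, if_pos List.suffix_rfl]
        linarith
    by_cases hval2 : l + 4 * R ≤ val c u es
    · refine ⟨es, l, 0, hes1, by rw [hls], hl0, hlR.le, le_rfl, by linarith,
        hkey 0 le_rfl (by linarith), ?_⟩
      rw [raise_zero]
      linarith
    · rw [not_le] at hval2
      refine ⟨es, l, l + 4 * R - val c u es, hes1, by rw [hls], hl0, hlR.le, by linarith,
        by linarith, hkey _ (by linarith) (by linarith), ?_⟩
      rw [val_raise (no_pins hc hbot), if_pos List.suffix_rfl]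
      linarith

/-- no labels of old nodes slightly above `s` -/
theorem gap (c : List (List ℕ)) (N : ℕ) (s : ℝ) :
    ∃ η : ℝ, 0 < η ∧ ∀ τ, cx τ ≤ N → L c τ ≤ (s : EReal) ∨ ((s + η : ℝ) : EReal) ≤ L c τ := by
  have h2 : ∀ τ : List ℕ, ∃ r : ℝ, s < r ∧ (L c τ ≤ (s : EReal) ∨ (r : EReal) ≤ L c τ) := by
    intro τ
    by_cases h : L c τ ≤ (s : EReal)
    · exact ⟨s + 1, by linarith, Or.inl h⟩
    · rw [not_le] at h
      obtain ⟨r, hr1, hr2⟩ := EReal.lt_iff_exists_real_btwn.mp h
      exact ⟨r, by exact_mod_cast hr1, Or.inr hr2.le⟩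
  choose r hr using h2
  obtain ⟨τ₀, hτ₀, hmin⟩ := Set.exists_min_image {τ : List ℕ | cx τ ≤ N} r (finite_cx N)
    ⟨[], Nat.zero_le _⟩
  refine ⟨r τ₀ - s, sub_pos.mpr (hr τ₀).1, fun τ hτ => ?_⟩
  rcases (hr τ).2 with h | h
  · exact Or.inl h
  · right
    refine le_trans ?_ h
    have : r τ₀ ≤ r τ := hmin τ hτ
    exact_mod_cast (by linarith : s + (r τ₀ - s) ≤ r τ)

/-- The core step (Claim H). -/
theorem core.{u} (S : Sys X) (N : ℕ) (x : X) (hx : Cx N (S.u x)) (r : ℚ) (hr : 0 < r)
    (c : List (List ℕ)) (hc : Valid c)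
    (h1 : c = [] ∨ ∀ τ, L c τ = ⊥ → 4 * (r : ℝ) ≤ val c (S.u x) τ)
    (h2 : ∀ σ, Valid (σ :: c) → ¬ ∀ τ, L (σ :: c) τ = ⊥ → 4 * (r : ℝ) ≤ val (σ :: c) (S.u x) τ) :
    ∃ s : ℝ, F c (S.u x) - r ≤ s ∧ ∀ (i : ℕ) (ε : ℝ), 0 < ε → ∃ (x' : X) (σ : List ℕ),
      ‖x' - x‖ ≤ 16 * (r : ℝ) ∧ Valid (σ :: c) ∧ s < (L c σ).toReal ∧
      (L c σ).toReal < s + ε ∧ (r : ℝ) / 2 ≤ F (σ :: c) (S.u x') ∧
      (∀ π, Valid (π :: σ :: c) → F (π :: σ :: c) (S.u x') ≤ 0) ∧
      (∀ {Y : Type u} [NormedAddCommGroup Y] [NormedSpace ℝ Y] (y : ℕ → Y) (t : ℝ),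
        gam y (σ :: c) t = (min (max t 0) ((r : ℝ) / 4)) • y i) := by
  have hR : (0 : ℝ) < (r : ℝ) := by exact_mod_cast hr
  have hu := S.bdd x
  have hpos : ∀ σ c', c = σ :: c' → ∀ τ, L (σ :: c') τ = ⊥ → 0 < val (σ :: c') (S.u x) τ := by
    intro σ c' h τ hτ
    rcases h1 with h3 | h3
    · rw [h3] at h; exact absurd h.symm (List.cons_ne_nil σ c')
    · rw [h] at h3
      have := h3 τ hτ
      linarith
  have hp : ∀ π ∈ c, cx π ≤ N := by
    intro π hπ
    cases c with
    | nil => exact absurd hπ List.not_mem_nil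
    | cons σ c' => exact (pin_le_head hc hπ).trans (cx_le_of_val hc hx (hpos σ c' rfl))
  obtain ⟨es, s, α, hes, hls, hs0, hDs, hα0, hα8, hkey, hes7⟩ := prep hc hu hx hp hR h1 h2
  refine ⟨s, hDs, fun i ε hε => ?_⟩
  obtain ⟨η, hη, hgap⟩ := gap c N s
  have hLes : L c es ≠ ⊤ := ne_top_of_le_ne_top (EReal.coe_ne_top _) hls
  have hb : s < s + min η (min ε ((r : ℝ) / 2)) := by
    have : 0 < min η (min ε ((r : ℝ) / 2)) := lt_min hη (lt_min hε (by positivity))
    linarith
  obtain ⟨k, hk1, hk2, hk3, hk4⟩ := dense_labels hc hLes hb hls hs0 N i (r / 4)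
  set σ : List ℕ := k :: es with hσ
  have hσbot : L c σ ≠ ⊥ := fun h => by rw [h] at hk2; exact absurd hk2 not_lt_bot
  have hσtop : L c σ ≠ ⊤ := ne_top_of_lt hk3
  have hv : Valid (σ :: c) := ⟨hc, hσbot, hσtop⟩
  obtain ⟨sk, hsk⟩ : ∃ sk : ℝ, L c σ = (sk : EReal) :=
    ⟨(L c σ).toReal, (EReal.coe_toReal hσtop hσbot).symm⟩
  have hskr : (L c σ).toReal = sk := by rw [hsk]; rfl
  have hsk1 : s < sk := by rw [hsk] at hk2; exact_mod_cast hk2
  have hsk2 : sk < s + min η (min ε ((r : ℝ) / 2)) := by rw [hsk] at hk3; exact_mod_cast hk3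
  have hskη : sk < s + η := by linarith [min_le_left η (min ε ((r : ℝ) / 2))]
  have hskε : sk < s + ε := by
    linarith [min_le_right η (min ε ((r : ℝ) / 2)), min_le_left ε ((r : ℝ) / 2)]
  have hskr2 : sk < s + (r : ℝ) / 2 := by
    linarith [min_le_right η (min ε ((r : ℝ) / 2)), min_le_right ε ((r : ℝ) / 2)]
  set u' : List ℕ → ℝ := raise c es α (S.u x) with hu'
  have hCx' : Cx N u' := raise_Cx hx hes
  have hσc : σ ∉ c := not_mem_of_real hc hσbot
  have hval' : val c u' σ = val c u' es := val_fresh hσc (hCx' k es hk1)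
  set β : ℝ := val c u' es - (sk - r) with hβ
  have hes1 := hkey es hes hls
  have hβ0 : 0 ≤ β := by rw [hβ]; linarith
  have hβ8 : β ≤ 8 * r := by rw [hβ]; linarith
  set x' : X := x + (sgn c es * α) • S.e es + (sgn c σ * (-β)) • S.e σ with hx'
  have hux' : S.u x' = raise c σ (-β) u' := by
    funext τ
    simp only [Sys.u, hx', map_add, map_smul, S.φ_e, smul_eq_mul, raise, hu']
  have hval'' : ∀ τ, val c (S.u x') τ = val c u' τ + (if σ <:+ τ then -β else 0) := by
    intro τ
    rw [hux']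
    exact val_raise (no_pins hc hσbot) u' (-β) τ
  have hNσ : N ≤ cx σ := hk1.le
  have hCx'' : Cx (cx σ) (S.u x') := by
    rw [hux']
    exact raise_Cx (fun k' e' h => hCx' k' e' (lt_of_le_of_lt hNσ h)) le_rfl
  -- old elements with label `< L c σ`
  have hold : ∀ τ, L c τ < L c σ → s + r ≤ val c u' τ := by
    intro τ
    have hsmall : ∀ τ, cx τ ≤ N → L c τ < L c σ → s + r ≤ val c u' τ := by
      intro τ hτ h
      apply hkey τ hτ
      rcases hgap τ hτ with h3 | h3
      · exact h3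
      · exfalso
        rw [hsk] at h
        have h4 := h3.trans_lt h
        have h5 : s + η < sk := by exact_mod_cast h4
        linarith
    induction τ with
    | nil => exact hsmall [] (Nat.zero_le _)
    | cons k' e' ih =>
      intro h
      by_cases hk : cx (k' :: e') ≤ N
      · exact hsmall _ hk h
      · rw [not_le] at hk
        have h3 : k' :: e' ∉ c := fun hm => absurd (hp _ hm) (not_le.mpr hk)
        rw [val_fresh h3 (hCx' k' e' hk)]
        exact ih ((L_mono_cons hc k' e').trans_lt h)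
  -- raw elements of the new cell
  have hraw : ∀ τ, L (σ :: c) τ = ⊥ → (r : ℝ) / 2 ≤ val (σ :: c) (S.u x') τ := by
    intro τ hτ
    rcases (raw_iff hv τ).mp hτ with h3 | h3
    · rw [h3, val_cons, if_pos List.suffix_rfl, hskr, hval'', if_pos List.suffix_rfl, hval', hβ]
      linarith
    · have h4 : ¬ σ <:+ τ := fun h => absurd (L_mono hc h) (not_le.mpr h3)
      rw [val_cons, if_neg h4, hskr, hval'', if_neg h4]
      linarith [hold τ h3]
  -- all elements of the new cell
  have hall : ∀ τ, L (σ :: c) τ ≠ ⊤ → (r : ℝ) / 2 ≤ val (σ :: c) (S.u x') τ := by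
    intro τ
    induction τ with
    | nil => intro _; exact hraw [] (L_nil _)
    | cons k' e' ih =>
      intro h
      by_cases hb : L (σ :: c) (k' :: e') = ⊥
      · exact hraw _ hb
      · have h3 : cx σ < cx (k' :: e') := cx_of_real hb h
        have h4 : k' :: e' ∉ σ :: c := fun hm => absurd (pin_le_head hv hm) (not_le.mpr h3)
        rw [val_fresh h4 (hCx'' k' e' h3)]
        exact ih (ne_top_of_le_ne_top h (L_mono_cons hv k' e'))
  refine ⟨x', σ, ?_, hv, by rw [hskr]; exact hsk1, by rw [hskr]; exact hskε, ?_, ?_, ?_⟩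
  · have h3 : x' - x = (sgn c es * α) • S.e es + (sgn c σ * (-β)) • S.e σ := by
      rw [hx']; abel
    have h4 : ∀ (c : List (List ℕ)) (e : List ℕ) (a : ℝ), ‖(sgn c e * a) • S.e e‖ ≤ |a| := by
      intro c e a
      rw [norm_smul, Real.norm_eq_abs, abs_mul]
      have h5 : |sgn c e| = 1 := by
        rcases sgn_abs c e with h | h <;> rw [h] <;> norm_num
      rw [h5, one_mul]
      have := S.e_le e
      have h6 := abs_nonneg a
      nlinarith
    rw [h3]
    refine (norm_add_le _ _).trans ?_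
    have h5 := h4 c es α
    have h6 := h4 c σ (-β)
    rw [abs_neg, abs_of_nonneg hβ0] at h6
    rw [abs_of_nonneg hα0] at h5
    linarith
  · rw [le_F_iff (S.bdd x')]
    intro τ
    by_cases h : L (σ :: c) τ = ⊤
    · rw [h]; simp
    · refine le_trans ?_ (le_max_left _ _)
      exact_mod_cast hall τ h
  · intro π hπ
    by_contra hcon
    rw [not_le] at hcon
    have h3 := cx_le_of_pos S hπ x' hCx'' hcon
    exact absurd (cx_lt hπ) (not_lt.mpr h3)
  · intro Y _ _ y t
    have h3 : (dec k).2.2.2.2.1 = i := by rw [hk4]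
    have h4 : (dec k).2.2.2.2.2 = r / 4 := by rw [hk4]
    simp only [hσ, gam, h3, h4]
    have h5 : max (((r / 4 : ℚ) : ℝ)) 0 = (r : ℝ) / 4 := by
      push_cast
      exact max_eq_left (by positivity)
    rw [h5]

end Pool.Agent.BNC
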