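import Pool.Agent.BNC.Stubs

/-!
# D1: the maps `G` are Lipschitz

PROOFS. `gam_lip`, `gam_of_nonpos`: cases on the cell; `t ↦ min (max t 0) ρ` is 1-Lipschitz.
`G_succ_of_pos`: the `dif_pos` branch; the chosen child is `σ` by `child_unique`; `nested`.
`G_succ_of_nonpos`: the `dif_neg` branch.
`G_eq_zero` (cases on `d`): `gam y (σ :: c) (F ..) = 0` by `gam_of_nonpos`, and no child of
`σ :: c` is active: `0 < F (π :: σ :: c) (S.u x)` would give `F (σ :: c) (S.u x) =
(L (σ :: c) π).toReal > 0` by `nested` and `lab_pos`.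
`exit_point`: the function `t ↦ F (σ :: c) (S.u (x + t • (x' - x)))` is continuous on `[0, 1]`
(Lipschitz by `F_lip`); let `t₀ = sInf {t ∈ [0, 1] | it is ≤ 0}`, `z = x + t₀ • (x' - x)`. The
set is closed, so the function is `≤ 0` at `t₀`, hence `0 < t₀`; for `t < t₀` it is positive, so
`F c (..) = (L c σ).toReal` there by `nested`, and the same holds at `t₀` by continuity of
`F c` (`t₀` is in the closure of `[0, t₀)`). The norms: `‖x - z‖ = t₀ ‖x - x'‖`,
`‖z - x'‖ = (1 - t₀) ‖x - x'‖`.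
`G_lip`: induction on `d` (for all `c`, `x`, `x'`). `d = 0`: `gam_lip`, `F_lip`. `d + 1`: three
cases. (i) no child active at `x` and at `x'`: `G_succ_of_nonpos` twice. (ii) the same child `σ`
active at both: `G_succ_of_pos` twice and the induction hypothesis for `σ :: c`. (iii) otherwise
some child `σ` is active at one of the points, say (symmetry, `norm_sub_rev`) at `x`, and not
at `x'`. Let `z` be the exit point, so `‖G y d (σ :: c) (S.u x)‖ =
‖G y d (σ :: c) (S.u x) - G y d (σ :: c) (S.u z)‖ ≤ ‖x - z‖` by `G_eq_zero` and the induction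
hypothesis. If no child is active at `x'`: the difference is
`gam y c s - gam y c (F c (S.u x')) + G y d (σ :: c) (S.u x)` with `s = F c (S.u z)`, of norm
`≤ ‖z - x'‖ + ‖x - z‖`. If `σ'` is active at `x'`: `σ'` is not active at `z` (otherwise
`F c (S.u z) = (L c σ').toReal = F c (S.u x')`; careful: this alone is no contradiction, so argue as follows:
if `F (σ' :: c) (S.u z) > 0` then `F c (S.u z) = (L c σ').toReal`, so
`(L c σ).toReal = (L c σ').toReal`, and labels are injective (`lab_inj` below), so `σ = σ'`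
is active at `x'`, contradiction). Take the exit point `z'` of `σ'` from `x'` towards `z`:
`‖x' - z'‖ + ‖z' - z‖ = ‖x' - z‖`, and the difference is at most
`‖x - z‖ + |F c (S.u z) - F c (S.u z')| + ‖x' - z'‖`.
-/

namespace Pool.Agent.BNC

variable {X : Type*} [NormedAddCommGroup X] [NormedSpace ℝ X]
variable {Y : Type*} [NormedAddCommGroup Y] [NormedSpace ℝ Y]

theorem gam_lip (y : ℕ → Y) (hy : ∀ i, ‖y i‖ ≤ 1) (c : List (List ℕ)) (s t : ℝ) :
    ‖gam y c s - gam y c t‖ ≤ |s - t| := by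
  match c with
  | [] => simp [gam]
  | [] :: _ => simp [gam]
  | (k :: _) :: _ =>
    simp only [gam]
    rw [← sub_smul, norm_smul, Real.norm_eq_abs]
    have h1 : |min (max s 0) (max ((dec k).2.2.2.2.2 : ℝ) 0) -
        min (max t 0) (max ((dec k).2.2.2.2.2 : ℝ) 0)| ≤ |s - t| := by
      refine (abs_min_sub_min_le_max _ _ _ _).trans ?_
      rw [sub_self, abs_zero, max_eq_left (abs_nonneg _)]
      exact abs_max_sub_max_le_abs s t 0
    calc _ ≤ |s - t| * 1 := mul_le_mul h1 (hy _) (norm_nonneg _) (abs_nonneg _)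
      _ = |s - t| := mul_one _

theorem gam_of_nonpos (y : ℕ → Y) (c : List (List ℕ)) (t : ℝ) (ht : t ≤ 0) :
    gam y c t = 0 := by
  match c with
  | [] => rfl
  | [] :: _ => rfl
  | (k :: _) :: _ =>
    simp only [gam]
    rw [max_eq_right ht, min_eq_left (le_max_right _ _), zero_smul]

/-- the value of `G` at a point of the region of a child -/
theorem G_succ_of_pos (S : Sys X) (y : ℕ → Y) (d : ℕ) {σ : List ℕ} {c : List (List ℕ)}
    (h : Valid (σ :: c)) (x : X) (hF : 0 < F (σ :: c) (S.u x)) :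
    G y (d + 1) c (S.u x) = gam y c (L c σ).toReal + G y d (σ :: c) (S.u x) := by
  have hex : ∃ σ, Valid (σ :: c) ∧ 0 < F (σ :: c) (S.u x) := ⟨σ, h, hF⟩
  have h1 : hex.choose = σ := child_unique S hex.choose_spec.1 h x hex.choose_spec.2 hF
  rw [G, dif_pos hex, h1, nested S h x hF]

/-- the value of `G` at a point outside of the regions of all children -/
theorem G_succ_of_nonpos (S : Sys X) (y : ℕ → Y) (d : ℕ) {c : List (List ℕ)} (x : X)
    (hF : ∀ σ, Valid (σ :: c) → F (σ :: c) (S.u x) ≤ 0) :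
    G y (d + 1) c (S.u x) = gam y c (F c (S.u x)) := by
  have hex : ¬ ∃ σ, Valid (σ :: c) ∧ 0 < F (σ :: c) (S.u x) := by
    rintro ⟨σ, h1, h2⟩
    exact absurd (hF σ h1) (not_le.2 h2)
  rw [G, dif_neg hex, add_zero]

theorem G_eq_zero (S : Sys X) (y : ℕ → Y) (d : ℕ) {σ : List ℕ} {c : List (List ℕ)}
    (h : Valid (σ :: c)) (x : X) (hF : F (σ :: c) (S.u x) ≤ 0) :
    G y d (σ :: c) (S.u x) = 0 := by
  cases d with
  | zero => exact gam_of_nonpos y _ _ hF
  | succ d =>
    rw [G_succ_of_nonpos S y d x, gam_of_nonpos y _ _ hF]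
    intro π hπ
    by_contra hcon
    have h1 := nested S hπ x (lt_of_not_ge hcon)
    have h2 := lab_pos hπ (List.cons_ne_nil σ c)
    linarith

theorem D1_cont (S : Sys X) {c : List (List ℕ)} (h : Valid c) (x v : X) :
    Continuous fun t : ℝ => F c (S.u (x + t • v)) := by
  have h1 : LipschitzWith ‖v‖.toNNReal fun t : ℝ => F c (S.u (x + t • v)) := by
    refine LipschitzWith.of_dist_le_mul fun s t => ?_
    rw [Real.dist_eq, Real.dist_eq, Real.coe_toNNReal _ (norm_nonneg v)]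
    refine (F_lip S h _ _).trans (le_of_eq ?_)
    have e : x + s • v - (x + t • v) = (s - t) • v := by
      rw [sub_smul]
      abel
    rw [e, norm_smul, Real.norm_eq_abs, mul_comm]
  exact h1.continuous

theorem D1_valid {σ : List ℕ} {c : List (List ℕ)} (h : Valid (σ :: c)) : Valid c := h.1

/-- the exit point of the region of a child on a segment -/
theorem exit_point (S : Sys X) {σ : List ℕ} {c : List (List ℕ)} (h : Valid (σ :: c)) (x x' : X)
    (hF : 0 < F (σ :: c) (S.u x)) (hF' : F (σ :: c) (S.u x') ≤ 0) :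
    ∃ z : X, F (σ :: c) (S.u z) ≤ 0 ∧ F c (S.u z) = (L c σ).toReal ∧
      ‖x - z‖ + ‖z - x'‖ = ‖x - x'‖ := by
  have hc1 := D1_cont S h x (x' - x)
  have hc2 := D1_cont S (D1_valid h) x (x' - x)
  set A : Set ℝ := Set.Icc 0 1 ∩ {t : ℝ | F (σ :: c) (S.u (x + t • (x' - x))) ≤ 0} with hA
  have hAc : IsClosed A := isClosed_Icc.inter (isClosed_le hc1 continuous_const)
  have h1A : (1 : ℝ) ∈ A := by
    refine ⟨⟨zero_le_one, le_rfl⟩, ?_⟩
    show F (σ :: c) (S.u (x + (1 : ℝ) • (x' - x))) ≤ 0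
    rw [one_smul, add_sub_cancel]
    exact hF'
  have hbd : BddBelow A := ⟨0, fun t ht => ht.1.1⟩
  have hmem : sInf A ∈ A := hAc.csInf_mem ⟨1, h1A⟩ hbd
  set t₀ := sInf A with ht₀
  have h01 := hmem.1
  have hne : t₀ ≠ 0 := by
    intro h0
    have h2 := hmem.2
    rw [h0] at h2
    have h3 : F (σ :: c) (S.u (x + (0 : ℝ) • (x' - x))) ≤ 0 := h2
    rw [zero_smul, add_zero] at h3
    exact absurd h3 (not_le.2 hF)
  have hpos : 0 < t₀ := lt_of_le_of_ne h01.1 (Ne.symm hne)
  have hcl : IsClosed {t : ℝ | F c (S.u (x + t • (x' - x))) = (L c σ).toReal} :=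
    isClosed_eq hc2 continuous_const
  have hsub : Set.Ico 0 t₀ ⊆ {t : ℝ | F c (S.u (x + t • (x' - x))) = (L c σ).toReal} := by
    intro t ht
    have h4 : 0 < F (σ :: c) (S.u (x + t • (x' - x))) := by
      by_contra hcon
      have h5 : t ∈ A := ⟨⟨ht.1, ht.2.le.trans h01.2⟩, not_lt.1 hcon⟩
      exact absurd (csInf_le hbd h5) (not_le.2 ht.2)
    exact nested S h _ h4
  have hend : t₀ ∈ {t : ℝ | F c (S.u (x + t • (x' - x))) = (L c σ).toReal} := by
    apply closure_minimal hsub hcl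
    rw [closure_Ico hne.symm]
    exact ⟨hpos.le, le_rfl⟩
  refine ⟨x + t₀ • (x' - x), hmem.2, hend, ?_⟩
  have e1 : x - (x + t₀ • (x' - x)) = -(t₀ • (x' - x)) := by abel
  have e2 : x + t₀ • (x' - x) - x' = -((1 - t₀) • (x' - x)) := by
    rw [sub_smul, one_smul]
    abel
  rw [e1, e2, norm_neg, norm_neg, norm_smul, norm_smul, Real.norm_eq_abs, Real.norm_eq_abs,
    abs_of_nonneg hpos.le, abs_of_nonneg (by linarith [h01.2] : (0 : ℝ) ≤ 1 - t₀), norm_sub_rev x x']
  ring

theorem D1_step (S : Sys X) (y : ℕ → Y) (hy : ∀ i, ‖y i‖ ≤ 1) (d : ℕ) {c : List (List ℕ)}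
    (h : Valid c)
    (ih : ∀ σ : List ℕ, Valid (σ :: c) → ∀ x x' : X,
      ‖G y d (σ :: c) (S.u x) - G y d (σ :: c) (S.u x')‖ ≤ ‖x - x'‖)
    (x x' : X) {σ : List ℕ} (hσ : Valid (σ :: c)) (hF : 0 < F (σ :: c) (S.u x))
    (hF' : F (σ :: c) (S.u x') ≤ 0) :
    ‖G y (d + 1) c (S.u x) - G y (d + 1) c (S.u x')‖ ≤ ‖x - x'‖ := by
  obtain ⟨z, hz1, hz2, hz3⟩ := exit_point S hσ x x' hF hF'
  have hG : ∀ (π : List ℕ), Valid (π :: c) → ∀ w w' : X, F (π :: c) (S.u w') ≤ 0 →
      ‖G y d (π :: c) (S.u w)‖ ≤ ‖w - w'‖ := by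
    intro π hπ w w' hw'
    have h1 := ih π hπ w w'
    rw [G_eq_zero S y d hπ w' hw', sub_zero] at h1
    exact h1
  have hx := G_succ_of_pos S y d hσ x hF
  by_cases hex : ∃ σ', Valid (σ' :: c) ∧ 0 < F (σ' :: c) (S.u x')
  · obtain ⟨σ', hσ', hact⟩ := hex
    have hne : σ ≠ σ' := by
      rintro rfl
      exact absurd hF' (not_le.2 hact)
    have hz4 : F (σ' :: c) (S.u z) ≤ 0 := by
      by_contra hcon
      have h1 := nested S hσ' z (lt_of_not_ge hcon)
      rw [hz2] at h1
      exact hne (lab_inj hσ hσ' h1)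
    obtain ⟨z', h1, h2, h3⟩ := exit_point S hσ' x' z hact hz4
    have hx' := G_succ_of_pos S y d hσ' x' hact
    have e : G y (d + 1) c (S.u x) - G y (d + 1) c (S.u x') =
        G y d (σ :: c) (S.u x) + (gam y c (F c (S.u z)) - gam y c (F c (S.u z'))) -
          G y d (σ' :: c) (S.u x') := by
      rw [hx, hx', hz2, h2]
      abel
    rw [e]
    have i1 := hG σ hσ x z hz1
    have i2 := hG σ' hσ' x' z' h1
    have i3 : ‖gam y c (F c (S.u z)) - gam y c (F c (S.u z'))‖ ≤ ‖z - z'‖ :=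
      (gam_lip y hy c _ _).trans (F_lip S h z z')
    have i4 := norm_sub_le (G y d (σ :: c) (S.u x) +
      (gam y c (F c (S.u z)) - gam y c (F c (S.u z')))) (G y d (σ' :: c) (S.u x'))
    have i5 := norm_add_le (G y d (σ :: c) (S.u x))
      (gam y c (F c (S.u z)) - gam y c (F c (S.u z')))
    have i6 := norm_sub_rev z z'
    have i7 := norm_sub_rev z x'
    linarith
  · have hx' := G_succ_of_nonpos S y d (c := c) x' (by
      intro π hπ
      by_contra hcon
      exact hex ⟨π, hπ, lt_of_not_ge hcon⟩)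
    have e : G y (d + 1) c (S.u x) - G y (d + 1) c (S.u x') =
        G y d (σ :: c) (S.u x) + (gam y c (F c (S.u z)) - gam y c (F c (S.u x'))) := by
      rw [hx, hx', hz2]
      abel
    rw [e]
    have i1 := hG σ hσ x z hz1
    have i3 : ‖gam y c (F c (S.u z)) - gam y c (F c (S.u x'))‖ ≤ ‖z - x'‖ :=
      (gam_lip y hy c _ _).trans (F_lip S h z x')
    have i5 := norm_add_le (G y d (σ :: c) (S.u x))
      (gam y c (F c (S.u z)) - gam y c (F c (S.u x')))
    linarith

theorem G_lip (S : Sys X) (y : ℕ → Y) (hy : ∀ i, ‖y i‖ ≤ 1) (d : ℕ) {c : List (List ℕ)}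
    (h : Valid c) (x x' : X) :
    ‖G y d c (S.u x) - G y d c (S.u x')‖ ≤ ‖x - x'‖ := by
  induction d generalizing c x x' with
  | zero => exact (gam_lip y hy c _ _).trans (F_lip S h x x')
  | succ d ih =>
    have ih' : ∀ σ : List ℕ, Valid (σ :: c) → ∀ x x' : X,
        ‖G y d (σ :: c) (S.u x) - G y d (σ :: c) (S.u x')‖ ≤ ‖x - x'‖ :=
      fun σ hσ x x' => ih hσ x x'
    by_cases hx : ∃ σ, Valid (σ :: c) ∧ 0 < F (σ :: c) (S.u x)
    · obtain ⟨σ, hσ, hF⟩ := hx
      by_cases hF' : 0 < F (σ :: c) (S.u x')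
      · rw [G_succ_of_pos S y d hσ x hF, G_succ_of_pos S y d hσ x' hF', add_sub_add_left_eq_sub]
        exact ih hσ x x'
      · exact D1_step S y hy d h ih' x x' hσ hF (not_lt.1 hF')
    · by_cases hx' : ∃ σ, Valid (σ :: c) ∧ 0 < F (σ :: c) (S.u x')
      · obtain ⟨σ, hσ, hF⟩ := hx'
        rw [norm_sub_rev, norm_sub_rev x x']
        refine D1_step S y hy d h ih' x' x hσ hF ?_
        by_contra hcon
        exact hx ⟨σ, hσ, lt_of_not_ge hcon⟩
      · rw [G_succ_of_nonpos S y d x (fun π hπ => by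
            by_contra hcon
            exact hx ⟨π, hπ, lt_of_not_ge hcon⟩),
          G_succ_of_nonpos S y d x' (fun π hπ => by
            by_contra hcon
            exact hx' ⟨π, hπ, lt_of_not_ge hcon⟩)]
        exact (gam_lip y hy c _ _).trans (F_lip S h x x')

end Pool.Agent.BNC
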