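import Pool.Agent.BNC.D1

/-!
# D2: the map on the points of finite complexity

PROOFS. `G_stable` (induction on `d`, for all `c`): if no child is active at `x`, both sides are
`gam y c (F c (S.u x))`. If `σ` is active then `cx σ ≤ N` (`cx_le_of_pos`) and `hd c < cx σ`
(`cx_pos` for `c = []`, `cx_lt` for `c = π :: _`), so `d = 0` is impossible
(`N ≤ hd c < cx σ ≤ N`), and for `d = d' + 1` use `G_succ_of_pos` twice and the induction
hypothesis for `σ :: c` (`N ≤ cx σ + d'`).
`fmap_eq`: all `G y d [] (S.u x)` with `d ≥ N` are equal by `G_stable` with `c = []`; compare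
both `d` and `Classical.choose (S.fin x)` with their maximum. `fmap_lip`: `fmap_eq` with a
common `d`, and `G_lip`.
`fmap_terminal`: show by induction on the cell `c` (for all `d`): if `c` is valid and `c = []` or
`0 < F c (S.u x)`, then `G y (d + c.length) [] (S.u x) = base y c + G y d c (S.u x)`
(for `σ :: c`: `F c (S.u x) = (L c σ).toReal`, which is positive if `c ≠ []`, so the induction
hypothesis applies with `d + 1`, and `G_succ_of_pos`). Then `fmap_eq` with a large `d`, and
`G_succ_of_nonpos` (take `d ≥ 1`).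
-/

namespace Pool.Agent.BNC

variable {X : Type*} [NormedAddCommGroup X] [NormedSpace ℝ X]
variable {Y : Type*} [NormedAddCommGroup Y] [NormedSpace ℝ Y]

/-- complexity of the last pin -/
def hd : List (List ℕ) → ℕ
  | [] => 0
  | σ :: _ => cx σ

theorem G_stable (S : Sys X) (y : ℕ → Y) (x : X) {N : ℕ} (hN : Cx N (S.u x)) (d : ℕ)
    {c : List (List ℕ)} (h : Valid c) (hd' : N ≤ hd c + d) :
    G y (d + 1) c (S.u x) = G y d c (S.u x) := by
  induction d generalizing c with
  | zero =>
    by_cases hex : ∀ σ, Valid (σ :: c) → F (σ :: c) (S.u x) ≤ 0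
    · rw [G_succ_of_nonpos S y 0 x hex]
      rfl
    · push Not at hex
      obtain ⟨σ, hσ, hF⟩ := hex
      have h1 := cx_le_of_pos S hσ x hN hF
      have h2 : hd c < cx σ := by
        cases c with
        | nil => exact cx_pos hσ
        | cons π c => exact cx_lt hσ
      omega
  | succ d ih =>
    by_cases hex : ∀ σ, Valid (σ :: c) → F (σ :: c) (S.u x) ≤ 0
    · rw [G_succ_of_nonpos S y (d + 1) x hex, G_succ_of_nonpos S y d x hex]
    · push Not at hex
      obtain ⟨σ, hσ, hF⟩ := hex
      have h1 := cx_le_of_pos S hσ x hN hF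
      have h2 : hd c < cx σ := by
        cases c with
        | nil => exact cx_pos hσ
        | cons π c => exact cx_lt hσ
      rw [G_succ_of_pos S y (d + 1) hσ x hF, G_succ_of_pos S y d hσ x hF,
        ih hσ (by change N ≤ cx σ + d; omega)]

/-- the map on the points of finite complexity -/
noncomputable def fmap (S : Sys X) (y : ℕ → Y) (x : X) : Y :=
  G y (Classical.choose (S.fin x)) [] (S.u x)

theorem fmap_eq (S : Sys X) (y : ℕ → Y) (x : X) {N : ℕ} (hN : Cx N (S.u x)) {d : ℕ}
    (hd : N ≤ d) : fmap S y x = G y d [] (S.u x) := by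
  have key : ∀ M : ℕ, Cx M (S.u x) → ∀ e, M ≤ e → G y e [] (S.u x) = G y M [] (S.u x) := by
    intro M hM e he
    induction e, he using Nat.le_induction with
    | base => rfl
    | succ e he ih =>
      rw [G_stable S y x hM e (c := []) trivial (by change M ≤ 0 + e; omega), ih]
  have h0 : Cx (Classical.choose (S.fin x)) (S.u x) := Classical.choose_spec (S.fin x)
  unfold fmap
  rw [← key _ h0 (max (Classical.choose (S.fin x)) d) (le_max_left _ _), key N hN d hd,
    ← key N hN (max (Classical.choose (S.fin x)) d) (hd.trans (le_max_right _ _))]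

theorem fmap_lip (S : Sys X) (y : ℕ → Y) (hy : ∀ i, ‖y i‖ ≤ 1) (x x' : X) :
    ‖fmap S y x - fmap S y x'‖ ≤ ‖x - x'‖ := by
  obtain ⟨N, hN⟩ := S.fin x
  obtain ⟨N', hN'⟩ := S.fin x'
  rw [fmap_eq S y x hN (le_max_left N N'), fmap_eq S y x' hN' (le_max_right N N')]
  exact G_lip S y hy _ (c := []) trivial x x'

private theorem D2_chain (S : Sys X) (y : ℕ → Y) (x : X) (c : List (List ℕ)) (h : Valid c)
    (h1 : c = [] ∨ 0 < F c (S.u x)) (d : ℕ) :
    G y (d + c.length) [] (S.u x) = base y c + G y d c (S.u x) := by
  induction c generalizing d with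
  | nil =>
    change G y d [] (S.u x) = 0 + G y d [] (S.u x)
    rw [zero_add]
  | cons σ c ih =>
    have hF : 0 < F (σ :: c) (S.u x) := by
      rcases h1 with h1 | h1
      · exact absurd h1 (List.cons_ne_nil _ _)
      · exact h1
    have hn := nested S h x hF
    have h2 : c = [] ∨ 0 < F c (S.u x) := by
      by_cases hc : c = []
      · exact Or.inl hc
      · right
        rw [hn]
        exact lab_pos h hc
    have h3 := ih h.1 h2 (d + 1)
    have e : d + (σ :: c).length = d + 1 + c.length := by
      rw [List.length_cons]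
      omega
    rw [e, h3, G_succ_of_pos S y d h x hF, ← add_assoc]
    rfl

/-- the value of the map at a point whose last active cell is `c` -/
theorem fmap_terminal (S : Sys X) (y : ℕ → Y) (x : X) {c : List (List ℕ)} (h : Valid c)
    (h1 : c = [] ∨ 0 < F c (S.u x)) (h2 : ∀ σ, Valid (σ :: c) → F (σ :: c) (S.u x) ≤ 0) :
    fmap S y x = base y c + gam y c (F c (S.u x)) := by
  obtain ⟨N, hN⟩ := S.fin x
  rw [fmap_eq S y x hN (d := N + 1 + c.length) (by omega), D2_chain S y x c h h1 (N + 1),
    G_succ_of_nonpos S y N x h2]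

end Pool.Agent.BNC
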