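import Mathlib

/-!
# Ball non-collapsing maps of the James tree space: definitions

Nodes are lists of natural numbers; the children of the node `e` are the lists `k :: e`.
Cells are lists of nodes (the last pin first).
-/

namespace Pool.Agent.BNC

/-- The complexity of a node. -/
def cx : List ℕ → ℕ
  | [] => 0
  | k :: e => cx e + k + 1

/-- The codes `(cell, P, p, m, i, ρ)`. -/
abbrev Code : Type := List (List ℕ) × ℕ × ℚ × ℕ × ℕ × ℚ

/-- The code of the last coordinate `k` of a node. -/
noncomputable def dec (k : ℕ) : Code :=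
  (Encodable.decode (α := Code) (Nat.unpair k).1).getD ([], 0, 0, 0, 0, 0)

/-- The target of the label of a child number `k` in the cell `c`. -/
noncomputable def tgt (c : List (List ℕ)) (k : ℕ) : ℝ :=
  if c = (dec k).1 then ((dec k).2.2.1 : ℝ) else ((dec k).2.1 : ℝ)

/-- The width of the window for the label. -/
noncomputable def wid (c : List (List ℕ)) (k : ℕ) : ℝ :=
  if c = (dec k).1 then 1 / ((((dec k).2.2.2.1 : ℕ) : ℝ) + 1) else 1

/-- A real number in the interval `(lo, lo + w)` of the form `q + (j + 1) √2`, `q` rational. -/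
noncomputable def pick (lo w : ℝ) (j : ℕ) : ℝ :=
  if h : 0 < w then
    ((Classical.choose (exists_rat_btwn
      (show lo - ((j : ℝ) + 1) * √2 < lo + w - ((j : ℝ) + 1) * √2 by linarith)) : ℚ) : ℝ)
      + ((j : ℝ) + 1) * √2
  else 0

/-- The lower bound for the label of the child number `k` in the cell `c`, if the label of the
predecessor is `b`. -/
noncomputable def lo (c : List (List ℕ)) (k : ℕ) (b : EReal) : ℝ :=
  max (tgt c k) (max (if b = ⊥ then tgt c k else b.toReal) (if c = [] then tgt c k else 0))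

/-- The label of the child `k :: e` in the cell `c`, if the label of `e` is `b`. -/
noncomputable def lab (c : List (List ℕ)) (k : ℕ) (e : List ℕ) (b : EReal) : ℝ :=
  pick (lo c k b) (wid c k) (Encodable.encode (k :: e))

/-- The labels in the root cell. -/
noncomputable def Lroot : List ℕ → EReal
  | [] => ⊥
  | k :: e => ((lab [] k e (Lroot e) : ℝ) : EReal)

/-- The labels in the cell `σ :: c`; `Lc` are the labels in the cell `c`. -/
noncomputable def Lstep (σ : List ℕ) (c : List (List ℕ)) (Lc : List ℕ → EReal) :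
    List ℕ → EReal
  | [] => ⊥
  | k :: e =>
    if Lc (k :: e) = ⊤ then ⊤
    else if k :: e = σ ∨ Lc (k :: e) < Lc σ then ⊥
    else if Lstep σ c Lc e = ⊤ ∨ (Lstep σ c Lc e = ⊥ ∧ cx (k :: e) ≤ cx σ) then ⊤
    else ((lab (σ :: c) k e (Lstep σ c Lc e) : ℝ) : EReal)

/-- The label function of a cell: `⊥` means raw, `⊤` means that the node is not an element. -/
noncomputable def L : List (List ℕ) → List ℕ → EReal
  | [] => Lroot
  | σ :: c => Lstep σ c (L c)

/-- The valid cells: every pin is labelled in the previous cell. -/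
def Valid : List (List ℕ) → Prop
  | [] => True
  | σ :: c => Valid c ∧ L c σ ≠ ⊥ ∧ L c σ ≠ ⊤

/-- The value of the node `τ` in the cell, in the state `u`. -/
noncomputable def val : List (List ℕ) → (List ℕ → ℝ) → List ℕ → ℝ
  | [], u, τ => u τ
  | σ :: c, u, τ =>
    if σ <:+ τ then (L c σ).toReal - val c u τ else val c u τ - (L c σ).toReal

/-- The depth function of a cell. -/
noncomputable def F (c : List (List ℕ)) (u : List ℕ → ℝ) : ℝ :=
  sSup {a : ℝ | ∀ τ, (a : EReal) ≤ max ((val c u τ : ℝ) : EReal) (L c τ)}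

/-- A normed space with a system of functionals indexed by the nodes. -/
structure Sys (X : Type*) [NormedAddCommGroup X] [NormedSpace ℝ X] where
  /-- the functionals -/
  φ : List ℕ → X →ₗ[ℝ] ℝ
  /-- the vectors -/
  e : List ℕ → X
  φ_le : ∀ τ x, |φ τ x| ≤ ‖x‖
  e_le : ∀ σ, ‖e σ‖ ≤ 1
  φ_e : ∀ σ τ, φ τ (e σ) = if σ <:+ τ then 1 else 0
  fin : ∀ x, ∃ N, ∀ k τ, N < cx (k :: τ) → φ (k :: τ) x = φ τ x

/-- The state of a point: the values of all functionals. -/
def Sys.u {X : Type*} [NormedAddCommGroup X] [NormedSpace ℝ X] (S : Sys X) (x : X) :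
    List ℕ → ℝ := fun τ => S.φ τ x

/-- The state `u` has complexity at most `N`. -/
def Cx (N : ℕ) (u : List ℕ → ℝ) : Prop := ∀ k τ, N < cx (k :: τ) → u (k :: τ) = u τ

/-- The data of the map: vectors of the unit ball of `Y` attached to numbers. -/
noncomputable def gam {Y : Type*} [NormedAddCommGroup Y] [NormedSpace ℝ Y] (y : ℕ → Y) :
    List (List ℕ) → ℝ → Y
  | [], _ => 0
  | [] :: _, _ => 0
  | (k :: _) :: _, t =>
    (min (max t 0) (max ((dec k).2.2.2.2.2 : ℝ) 0)) • y (dec k).2.2.2.2.1

open Classical in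
/-- The part of the map from the cell `c` downwards, `d` generations. -/
noncomputable def G {Y : Type*} [NormedAddCommGroup Y] [NormedSpace ℝ Y] (y : ℕ → Y) :
    ℕ → List (List ℕ) → (List ℕ → ℝ) → Y
  | 0, c, u => gam y c (F c u)
  | d + 1, c, u => gam y c (F c u) +
      (if h : ∃ σ, Valid (σ :: c) ∧ 0 < F (σ :: c) u then G y d (h.choose :: c) u else 0)

/-- The base value of a cell. -/
noncomputable def base {Y : Type*} [NormedAddCommGroup Y] [NormedSpace ℝ Y] (y : ℕ → Y) :
    List (List ℕ) → Y
  | [] => 0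
  | σ :: c => base y c + gam y c (L c σ).toReal

end Pool.Agent.BNC
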