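import Pool.Agent.BNC.Stubs

/-!
# F1: existence of a maximal cell

PROOF. Let `N` be a bound of the complexity of `S.u x` (`S.fin x`; `Cx N (S.u x)`). For a valid
cell let `Q c` be `c = [] ∨ ∀ τ, L c τ = ⊥ → 4 r ≤ val c (S.u x) τ`. If `Q (σ :: c)` (so the
second alternative) then `0 < F (σ :: c) (S.u x)` by `F_pos_of_raw` and `cx σ ≤ N` by
`cx_le_of_pos`. Moreover `(σ :: c).length ≤ cx σ` for every valid `σ :: c` (induction on `c`,
`cx_pos` and `cx_lt`). So valid cells with `Q` have length `≤ N`. Take a valid cell with `Q` of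
maximal length (it exists: `[]` is one; `Nat.findGreatest` or induction on `N - c.length`).
If `Valid (σ :: c)` and all raw elements of `σ :: c` have values `≥ 4 r`, then `Q (σ :: c)`
holds, contradiction with the maximality.
-/

namespace Pool.Agent.BNC

variable {X : Type*} [NormedAddCommGroup X] [NormedSpace ℝ X]

theorem length_le_cx {σ : List ℕ} {c : List (List ℕ)} (h : Valid (σ :: c)) :
    (σ :: c).length ≤ cx σ := by
  induction c generalizing σ with
  | nil =>
    have h1 := cx_pos h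
    simp only [List.length_cons, List.length_nil]
    omega
  | cons π c ih =>
    have h1 := ih h.1
    have h2 := cx_lt h
    simp only [List.length_cons] at h1 ⊢
    omega

/-- the maximal cell -/
theorem exists_max_cell (S : Sys X) (x : X) (r : ℚ) (hr : 0 < r) :
    ∃ c : List (List ℕ), Valid c ∧
      (c = [] ∨ ∀ τ, L c τ = ⊥ → 4 * (r : ℝ) ≤ val c (S.u x) τ) ∧
      (∀ σ, Valid (σ :: c) →
        ¬ ∀ τ, L (σ :: c) τ = ⊥ → 4 * (r : ℝ) ≤ val (σ :: c) (S.u x) τ) := by
  obtain ⟨N, hN⟩ := S.fin x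
  have hCx : Cx N (S.u x) := fun k τ h => hN k τ h
  have hr' : (0 : ℝ) < 4 * (r : ℝ) := by
    have : (0 : ℝ) < (r : ℝ) := by exact_mod_cast hr
    linarith
  let Q : List (List ℕ) → Prop := fun c => Valid c ∧
    (c = [] ∨ ∀ τ, L c τ = ⊥ → 4 * (r : ℝ) ≤ val c (S.u x) τ)
  have hlen : ∀ c, Q c → c.length ≤ N := by
    intro c hc
    cases c with
    | nil => exact Nat.zero_le _
    | cons σ c =>
      have h1 : ∀ τ, L (σ :: c) τ = ⊥ → 4 * (r : ℝ) ≤ val (σ :: c) (S.u x) τ :=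
        hc.2.resolve_left (List.cons_ne_nil _ _)
      have h2 := F_pos_of_raw S hc.1 x hr' h1
      exact (length_le_cx hc.1).trans (cx_le_of_pos S hc.1 x hCx h2)
  have hne : {n : ℕ | ∃ c, Q c ∧ c.length = n}.Nonempty := ⟨0, [], ⟨trivial, Or.inl rfl⟩, rfl⟩
  have hbdd : BddAbove {n : ℕ | ∃ c, Q c ∧ c.length = n} := ⟨N, by
    rintro n ⟨c, hc, rfl⟩
    exact hlen c hc⟩
  obtain ⟨c, hc, hcn⟩ := Nat.sSup_mem hne hbdd
  refine ⟨c, hc.1, hc.2, fun σ hσ hraw => ?_⟩
  have h1 : (σ :: c).length ≤ sSup {n : ℕ | ∃ c, Q c ∧ c.length = n} :=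
    le_csSup hbdd ⟨σ :: c, ⟨hσ, Or.inr hraw⟩, rfl⟩
  rw [← hcn, List.length_cons] at h1
  omega

end Pool.Agent.BNC
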