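import Pool.Agent.BNC.D2
import Pool.Agent.BNC.Core
import Pool.Agent.BNC.F1

/-!
# F2: the steps of the iteration

PROOFS. `good_step`: let `σ :: c` be the cell of `Good S y x r`. Apply `core` with the scale
`r'` and the cell `σ :: c`: `h1`: raw elements have values `≥ F ≥ r / 2 ≥ 4 r'` (`F_le_raw`);
`h2`: if all raw elements of `π :: σ :: c` had values `≥ 4 r' > 0` then
`0 < F (π :: σ :: c) (S.u x)` (`F_pos_of_raw`), contradicting `Good`. We get
`s ≥ F - r' ≥ r / 2 - r / 16 ≥ r / 4`. For the number `i` and `ε = 1` we get `x'` and `σ'` with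
`(L (σ :: c) σ').toReal > s ≥ r / 4`. By `fmap_terminal` (twice)
`fmap S y x = base y (σ :: c) + gam y (σ :: c) (F ..)` and
`fmap S y x' = base y (σ' :: σ :: c) + gam y (σ' :: σ :: c) (F ..)`, where
`base y (σ' :: σ :: c) = base y (σ :: c) + gam y (σ :: c) (L (σ :: c) σ').toReal`; both
`gam y (σ :: c) ..` equal `gam y (σ :: c) (r / 4)` and the last term is
`min (F ..) (r' / 4) • y i = (r' / 4) • y i` since `F .. ≥ r' / 2`.
`first_step`: the cell `c` of `exists_max_cell`, `s` of `core`, `z = base y c + gam y c s`; as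
above `fmap S y x' = base y c + gam y c (L c σ).toReal + (r / 4) • y i` and
`‖gam y c (L c σ).toReal - gam y c s‖ ≤ |(L c σ).toReal - s| ≤ ε` (`gam_lip`).
`first_step_zero`: the same with `x = 0` and `c = []`: `Cx 0 (S.u 0)`, and `h2` holds for
`c = []`, because otherwise `0 < F [σ] (S.u 0)` and `cx σ ≤ 0` (`cx_le_of_pos`), contradicting
`cx_pos`. Here `z = base y [] + gam y [] s = 0`.
-/

namespace Pool.Agent.BNC

variable {X : Type*} [NormedAddCommGroup X] [NormedSpace ℝ X]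
variable {Y : Type*} [NormedAddCommGroup Y] [NormedSpace ℝ Y]

/-- A point `x` is good at the scale `r`: its last active cell has depth at least `r / 2` at
`x`, and the path of this cell is constant from `r / 4` on. -/
def Good (S : Sys X) (y : ℕ → Y) (x : X) (r : ℚ) : Prop :=
  ∃ (σ : List ℕ) (c : List (List ℕ)), Valid (σ :: c) ∧ (r : ℝ) / 2 ≤ F (σ :: c) (S.u x) ∧
    (∀ π, Valid (π :: σ :: c) → F (π :: σ :: c) (S.u x) ≤ 0) ∧
    (∀ t : ℝ, (r : ℝ) / 4 ≤ t → gam y (σ :: c) t = gam y (σ :: c) ((r : ℝ) / 4))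

private theorem F2_gam {Y : Type*} [NormedAddCommGroup Y] [NormedSpace ℝ Y] (y : ℕ → Y) (i : ℕ)
    (r : ℝ) {c : List (List ℕ)}
    (h : ∀ t : ℝ, gam y c t = (min (max t 0) (r / 4)) • y i) {t : ℝ} (ht : r / 4 ≤ t) :
    gam y c t = (r / 4) • y i := by
  rw [h t, min_eq_right (ht.trans (le_max_left _ _))]

/-- from a good point at the scale `r` one reaches all targets at all scales `r' ≤ r / 16` -/
theorem good_step (S : Sys X) (y : ℕ → Y) (x : X) (r : ℚ) (hg : Good S y x r)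
    (r' : ℚ) (hr' : 0 < r') (hrr : 16 * r' ≤ r) (i : ℕ) :
    ∃ x' : X, ‖x' - x‖ ≤ 16 * (r' : ℝ) ∧ Good S y x' r' ∧
      fmap S y x' = fmap S y x + ((r' : ℝ) / 4) • y i := by
  obtain ⟨σ, c, hv, hF, hmax, hconst⟩ := hg
  obtain ⟨N, hN⟩ := S.fin x
  have hCx : Cx N (S.u x) := fun k τ h => hN k τ h
  have hr0 : (0 : ℝ) < (r' : ℝ) := by exact_mod_cast hr'
  have hrr0 : 16 * (r' : ℝ) ≤ (r : ℝ) := by exact_mod_cast hrr
  have hFpos : 0 < F (σ :: c) (S.u x) := by linarith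
  obtain ⟨s, hs, hstep⟩ := core S N x hCx r' hr' (σ :: c) hv
    (Or.inr fun τ hτ => by
      have h1 := F_le_raw S hv x τ hτ
      linarith)
    (fun π hπ hraw => by
      have h1 := F_pos_of_raw S hπ x (by linarith) hraw
      exact absurd h1 (not_lt.2 (hmax π hπ)))
  obtain ⟨x', σ', hx', hv', hs1, hs2, hF', hmax', hgam⟩ := hstep i 1 one_pos
  have hgam' : ∀ t : ℝ, gam y (σ' :: σ :: c) t = (min (max t 0) ((r' : ℝ) / 4)) • y i :=
    fun t => hgam y t
  refine ⟨x', hx', ⟨σ', σ :: c, hv', hF', hmax', fun t ht => ?_⟩, ?_⟩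
  · rw [F2_gam y i r' hgam' ht, F2_gam y i r' hgam' le_rfl]
  · have e1 := fmap_terminal S y x hv (Or.inr hFpos) hmax
    have e2 := fmap_terminal S y x' hv' (Or.inr (by linarith)) hmax'
    have e3 : base y (σ' :: σ :: c) =
        base y (σ :: c) + gam y (σ :: c) (L (σ :: c) σ').toReal := rfl
    rw [e2, e1, e3, hconst _ (by linarith : (r : ℝ) / 4 ≤ (L (σ :: c) σ').toReal),
      hconst _ (by linarith : (r : ℝ) / 4 ≤ F (σ :: c) (S.u x)),
      F2_gam y i r' hgam' (by linarith)]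

/-- the first step, with a shifted centre -/
theorem first_step (S : Sys X) (y : ℕ → Y) (hy : ∀ i, ‖y i‖ ≤ 1) (x : X) (r : ℚ) (hr : 0 < r) :
    ∃ z : Y, ∀ (i : ℕ) (ε : ℝ), 0 < ε → ∃ x' : X, ‖x' - x‖ ≤ 16 * (r : ℝ) ∧
      Good S y x' r ∧ ‖fmap S y x' - (z + ((r : ℝ) / 4) • y i)‖ ≤ ε := by
  obtain ⟨c, hc, h1, h2⟩ := exists_max_cell S x r hr
  obtain ⟨N, hN⟩ := S.fin x
  have hCx : Cx N (S.u x) := fun k τ h => hN k τ h
  have hr0 : (0 : ℝ) < (r : ℝ) := by exact_mod_cast hr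
  obtain ⟨s, -, hstep⟩ := core S N x hCx r hr c hc h1 h2
  refine ⟨base y c + gam y c s, fun i ε hε => ?_⟩
  obtain ⟨x', σ, hx', hv, hs1, hs2, hF, hmax, hgam⟩ := hstep i ε hε
  have hgam' : ∀ t : ℝ, gam y (σ :: c) t = (min (max t 0) ((r : ℝ) / 4)) • y i :=
    fun t => hgam y t
  refine ⟨x', hx', ⟨σ, c, hv, hF, hmax, fun t ht => ?_⟩, ?_⟩
  · rw [F2_gam y i r hgam' ht, F2_gam y i r hgam' le_rfl]
  · have e2 := fmap_terminal S y x' hv (Or.inr (by linarith)) hmax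
    have e3 : base y (σ :: c) = base y c + gam y c (L c σ).toReal := rfl
    rw [e2, e3, F2_gam y i r hgam' (by linarith)]
    have e4 : base y c + gam y c (L c σ).toReal + ((r : ℝ) / 4) • y i -
        (base y c + gam y c s + ((r : ℝ) / 4) • y i) =
        gam y c (L c σ).toReal - gam y c s := by abel
    rw [e4]
    refine (gam_lip y hy c _ _).trans ?_
    rw [abs_of_pos (by linarith)]
    linarith

/-- the first step at the origin -/
theorem first_step_zero (S : Sys X) (y : ℕ → Y) (hy : ∀ i, ‖y i‖ ≤ 1) (r : ℚ) (hr : 0 < r)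
    (i : ℕ) (ε : ℝ) (hε : 0 < ε) : ∃ x' : X, ‖x'‖ ≤ 16 * (r : ℝ) ∧
      Good S y x' r ∧ ‖fmap S y x' - ((r : ℝ) / 4) • y i‖ ≤ ε := by
  have hr0 : (0 : ℝ) < (r : ℝ) := by exact_mod_cast hr
  have hCx : Cx 0 (S.u (0 : X)) := fun k τ _ => by
    show S.φ (k :: τ) 0 = S.φ τ 0
    rw [map_zero, map_zero]
  obtain ⟨s, -, hstep⟩ := core S 0 0 hCx r hr [] trivial (Or.inl rfl) (fun σ hσ hraw => by
    have h1 := F_pos_of_raw S hσ 0 (by linarith) hraw
    have h2 := cx_le_of_pos S hσ 0 hCx h1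
    have h3 := cx_pos hσ
    omega)
  obtain ⟨x', σ, hx', hv, hs1, hs2, hF, hmax, hgam⟩ := hstep i ε hε
  have hgam' : ∀ t : ℝ, gam y [σ] t = (min (max t 0) ((r : ℝ) / 4)) • y i :=
    fun t => hgam y t
  refine ⟨x', by rwa [sub_zero] at hx', ⟨σ, [], hv, hF, hmax, fun t ht => ?_⟩, ?_⟩
  · rw [F2_gam y i r hgam' ht, F2_gam y i r hgam' le_rfl]
  · have e2 := fmap_terminal S y x' hv (Or.inr (by linarith)) hmax
    have e3 : base y [σ] = 0 + 0 := rfl
    rw [e2, e3, F2_gam y i r hgam' (by linarith), add_zero, zero_add, sub_self, norm_zero]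
    exact hε.le

end Pool.Agent.BNC
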