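import Pool.Agent.BNC.F2

/-!
# F3: the theorem for the completion of a space with a system of functionals

`UniformSpace.Completion X` is the completion; `f = Completion.extension (fmap S y)` is
1-Lipschitz (`fmap_lip`, `LipschitzWith.completion_extension`) and `f (x : Completion) =
fmap S y x` on `X` (`Completion.extension_coe`).
PROOFS. `exists_dense_ball`: a dense sequence of the closed unit ball of `Y`
(`TopologicalSpace.denseSeq` of the subtype `Metric.closedBall (0 : Y) 1`).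
`good_ball`: let `x` be good at the scale `r` and `0 < t ≤ r`; choose a rational `r₀` with
`t / 20 < r₀ < t / 18` and let `r_n = r₀ / 16 ^ n`. Given `w` with
`‖w - fmap S y x‖ ≤ t / 80 ≤ r₀ / 4`, construct recursively `x_0 = x`, and `x_{n+1}` with
`‖x_{n+1} - x_n‖ ≤ 16 r_n`, `x_{n+1}` good at the scale `r_n`,
`‖w - fmap S y x_n‖ ≤ r_n / 4`: choose `i` with `‖(w - fmap S y x_n) - (r_n / 4) • y i‖ ≤
r_n / 64` (the vector `(4 / r_n) • (w - fmap S y x_n)` is in the unit ball; density) and apply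
`good_step` (for `n = 0`: `16 r₀ ≤ r`; for `n + 1`: `16 r_{n+1} = r_n`). The images in the
completion form a Cauchy sequence (`cauchySeq_of_le_geometric` or
`dist_le_of_le_geometric_of_tendsto`), the limit `a` has
`‖a - x‖ ≤ 16 r₀ * (16 / 15) ≤ 18 r₀ ≤ t` and `f a = w` by continuity.
`bnc_sys`: surjectivity: given `w`, choose a rational `r > 4 ‖w‖ + 1`, so that `w` is within
`r / 4` of `0`; choose `i` with `‖w - (r / 4) • y i‖ ≤ r / 1000` and `first_step_zero` with
`ε = r / 1000`: a point `x'` good at the scale `r` with `‖w - fmap S y x'‖ ≤ r / 500 ≤ r / 80`; `good_ball` with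
`t = r`. The last property: given `a` in the completion and `R > 0`, choose `x ∈ X` with
`‖a - x‖ ≤ R / 100` (density) and a rational `r` with `R / 20 < r < R / 17`; `first_step` gives
some `x'` (with `i = 0`, `ε = 1`) good at the scale `r` with `‖x' - x‖ ≤ 16 r ≤ (16 / 17) R`, so `‖x' - a‖ ≤ R`.
For `t ≤ r` use `good_ball`; for `r < t ≤ R` use `good_ball` with `r` in the place of `t`, and
`t / 1600 ≤ R / 1600 ≤ r / 80`.
-/

namespace Pool.Agent.BNC

open UniformSpace

variable {X : Type*} [NormedAddCommGroup X] [NormedSpace ℝ X]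
variable {Y : Type*} [NormedAddCommGroup Y] [NormedSpace ℝ Y]

theorem exists_dense_ball (Y : Type*) [NormedAddCommGroup Y] [NormedSpace ℝ Y]
    [TopologicalSpace.SeparableSpace Y] :
    ∃ y : ℕ → Y, (∀ i, ‖y i‖ ≤ 1) ∧ ∀ (v : Y) (ε : ℝ), ‖v‖ ≤ 1 → 0 < ε → ∃ i, ‖v - y i‖ ≤ ε := by
  have : SecondCountableTopology Y := UniformSpace.secondCountable_of_separable Y
  have : Nonempty (Metric.closedBall (0 : Y) 1) := ⟨⟨0, by simp⟩⟩
  refine ⟨fun i => (TopologicalSpace.denseSeq (Metric.closedBall (0 : Y) 1) i : Y), fun i => ?_, ?_⟩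
  · have h := (TopologicalSpace.denseSeq (Metric.closedBall (0 : Y) 1) i).2
    rwa [mem_closedBall_zero_iff] at h
  · intro v ε hv hε
    have hd := TopologicalSpace.denseRange_denseSeq (Metric.closedBall (0 : Y) 1)
    obtain ⟨i, hi⟩ := hd.exists_dist_lt ⟨v, by rwa [mem_closedBall_zero_iff]⟩ hε
    refine ⟨i, ?_⟩
    have h2 : dist v (TopologicalSpace.denseSeq (Metric.closedBall (0 : Y) 1) i : Y) < ε := hi
    rw [dist_eq_norm] at h2
    exact h2.le

/-- one can approximate in balls of radius `r / 4` -/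
private theorem F3_approx (y : ℕ → Y)
    (hd : ∀ (v : Y) (ε : ℝ), ‖v‖ ≤ 1 → 0 < ε → ∃ i, ‖v - y i‖ ≤ ε) (r : ℝ) (hr : 0 < r) (v : Y)
    (hv : ‖v‖ ≤ r / 4) (ε : ℝ) (hε : 0 < ε) : ∃ i, ‖v - (r / 4) • y i‖ ≤ ε := by
  have h4 : (0 : ℝ) < r / 4 := by positivity
  obtain ⟨i, hi⟩ := hd ((r / 4)⁻¹ • v) (ε / (r / 4)) (by
    rw [norm_smul, Real.norm_of_nonneg (by positivity), inv_mul_le_iff₀ h4, mul_one]
    exact hv) (by positivity)
  refine ⟨i, ?_⟩
  have h1 : v - (r / 4) • y i = (r / 4) • ((r / 4)⁻¹ • v - y i) := by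
    rw [smul_sub, smul_smul, mul_inv_cancel₀ h4.ne', one_smul]
  rw [h1, norm_smul, Real.norm_of_nonneg h4.le]
  rw [le_div_iff₀ h4] at hi
  linarith

private theorem F3_lip (S : Sys X) (y : ℕ → Y) (hy : ∀ i, ‖y i‖ ≤ 1) :
    LipschitzWith 1 (fmap S y) := by
  refine LipschitzWith.of_dist_le_mul fun x x' => ?_
  rw [dist_eq_norm, dist_eq_norm, NNReal.coe_one, one_mul]
  exact fmap_lip S y hy x x'

private theorem F3_seq {P : ℕ → X → Prop} {b : ℕ → ℝ} (x : X) (h0 : P 0 x)
    (hs : ∀ n z, P n z → ∃ z', ‖z' - z‖ ≤ b n ∧ P (n + 1) z') :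
    ∃ u : ℕ → X, u 0 = x ∧ (∀ n, P n (u n)) ∧ ∀ n, ‖u (n + 1) - u n‖ ≤ b n := by
  choose g hg1 hg2 using hs
  let q : (n : ℕ) → {z : X // P n z} := fun n =>
    Nat.rec (motive := fun n => {z : X // P n z}) ⟨x, h0⟩ (fun n z => ⟨g n z.1 z.2, hg2 n z.1 z.2⟩) n
  exact ⟨fun n => (q n).1, rfl, fun n => (q n).2, fun n => hg1 n (q n).1 (q n).2⟩

theorem good_ball [CompleteSpace Y] (S : Sys X) (y : ℕ → Y) (hy : ∀ i, ‖y i‖ ≤ 1)
    (hd : ∀ (v : Y) (ε : ℝ), ‖v‖ ≤ 1 → 0 < ε → ∃ i, ‖v - y i‖ ≤ ε)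
    (x : X) (r : ℚ) (hg : Good S y x r) (t : ℝ) (ht : 0 < t) (htr : t ≤ r) :
    Metric.closedBall (Completion.extension (fmap S y) (x : Completion X)) (t / 80) ⊆
      Completion.extension (fmap S y) '' Metric.closedBall (x : Completion X) t := by
  intro w hw
  have hlip := F3_lip S y hy
  have hext : ∀ z : X, Completion.extension (fmap S y) (z : Completion X) = fmap S y z :=
    fun z => Completion.extension_coe hlip.uniformContinuous z
  rw [Metric.mem_closedBall, hext, dist_eq_norm] at hw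
  obtain ⟨r₀, hr1, hr2⟩ := exists_rat_btwn (show t / 20 < t / 18 by linarith)
  have hr0 : (0 : ℝ) < (r₀ : ℝ) := by linarith
  have hr0' : (0 : ℚ) < r₀ := by exact_mod_cast hr0
  have hpow : ∀ n : ℕ, (0 : ℝ) < (16 : ℝ) ^ n := fun n => by positivity
  let P : ℕ → X → Prop := fun n z =>
    (∃ ρ : ℚ, 16 * (r₀ / 16 ^ n) ≤ ρ ∧ Good S y z ρ) ∧ ‖w - fmap S y z‖ ≤ (r₀ : ℝ) / 16 ^ n / 4
  have hP0 : P 0 x := by
    refine ⟨⟨r, ?_, hg⟩, ?_⟩
    · rw [pow_zero, div_one]
      have h1 : (16 : ℝ) * (r₀ : ℝ) ≤ (r : ℝ) := by linarith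
      exact_mod_cast h1
    · rw [pow_zero, div_one]
      linarith
  have hstep : ∀ n z, P n z → ∃ z', ‖z' - z‖ ≤ 16 * (r₀ : ℝ) * (1 / 16) ^ n ∧ P (n + 1) z' := by
    rintro n z ⟨⟨ρ, h1, h2⟩, h3⟩
    have hrn : (0 : ℝ) < (r₀ : ℝ) / 16 ^ n := div_pos hr0 (hpow n)
    obtain ⟨i, hi⟩ := F3_approx y hd ((r₀ : ℝ) / 16 ^ n) hrn (w - fmap S y z) h3
      ((r₀ : ℝ) / 16 ^ (n + 1) / 4) (by positivity)
    obtain ⟨z', hz1, hz2, hz3⟩ := good_step S y z ρ h2 (r₀ / 16 ^ n) (by positivity) h1 i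
    push_cast at hz1 hz3
    refine ⟨z', ?_, ⟨r₀ / 16 ^ n, ?_, hz2⟩, ?_⟩
    · refine hz1.trans (le_of_eq ?_)
      rw [one_div, inv_pow]
      ring
    · rw [pow_succ]
      apply le_of_eq
      field_simp
    · rw [hz3, ← sub_sub]
      exact hi
  obtain ⟨u, hu0, huP, hud⟩ := F3_seq x hP0 hstep
  have hdist : ∀ n, dist ((u n : X) : Completion X) (u (n + 1)) ≤ 16 * (r₀ : ℝ) * (1 / 16) ^ n := by
    intro n
    rw [Completion.dist_eq, dist_comm, dist_eq_norm]
    exact hud n
  have hc : CauchySeq (fun n => ((u n : X) : Completion X)) :=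
    cauchySeq_of_le_geometric (1 / 16) (16 * (r₀ : ℝ)) (by norm_num) hdist
  obtain ⟨a, ha⟩ := cauchySeq_tendsto_of_complete hc
  refine ⟨a, ?_, ?_⟩
  · have h1 := dist_le_of_le_geometric_of_tendsto₀ (1 / 16) (16 * (r₀ : ℝ)) (by norm_num) hdist ha
    rw [hu0] at h1
    rw [Metric.mem_closedBall, dist_comm]
    refine h1.trans ?_
    rw [div_le_iff₀ (by norm_num)]
    linarith
  · have hcont : Continuous (Completion.extension (fmap S y)) := Completion.continuous_extension
    have h1 := (hcont.tendsto a).comp ha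
    have h2 : Filter.Tendsto (fun n => fmap S y (u n)) Filter.atTop (nhds w) := by
      rw [tendsto_iff_norm_sub_tendsto_zero]
      have h3 : Filter.Tendsto (fun n : ℕ => (r₀ : ℝ) / 4 * (1 / 16) ^ n) Filter.atTop (nhds 0) := by
        have h4 := (tendsto_pow_atTop_nhds_zero_of_lt_one (r := (1 / 16 : ℝ)) (by norm_num)
          (by norm_num)).const_mul ((r₀ : ℝ) / 4)
        rwa [mul_zero] at h4
      refine squeeze_zero (fun n => norm_nonneg _) (fun n => ?_) h3
      rw [norm_sub_rev]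
      refine (huP n).2.trans (le_of_eq ?_)
      rw [one_div, inv_pow]
      ring
    refine tendsto_nhds_unique h1 (h2.congr fun n => ?_)
    exact (hext (u n)).symm

theorem bnc_sys [CompleteSpace Y] [TopologicalSpace.SeparableSpace Y] (S : Sys X) :
    ∃ f : Completion X → Y, LipschitzWith 1 f ∧ Function.Surjective f ∧
      ∀ (a : Completion X) (R : ℝ), 0 < R → ∃ a' ∈ Metric.closedBall a R,
        ∀ t : ℝ, 0 < t → t ≤ R →
          Metric.closedBall (f a') (t / 1600) ⊆ f '' Metric.closedBall a' t := by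
  obtain ⟨y, hy, hd⟩ := exists_dense_ball Y
  have hlip := F3_lip S y hy
  have hext : ∀ z : X, Completion.extension (fmap S y) (z : Completion X) = fmap S y z :=
    fun z => Completion.extension_coe hlip.uniformContinuous z
  refine ⟨Completion.extension (fmap S y), hlip.completion_extension, ?_, ?_⟩
  · intro w
    obtain ⟨r, hr⟩ := exists_rat_gt (4 * ‖w‖ + 1)
    have hw0 := norm_nonneg w
    have hr0 : (0 : ℝ) < (r : ℝ) := by linarith
    obtain ⟨i, hi⟩ := F3_approx y hd (r : ℝ) hr0 w (by linarith) ((r : ℝ) / 1000) (by positivity)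
    obtain ⟨x', -, hg, hx'⟩ := first_step_zero S y hy r (by exact_mod_cast hr0) i ((r : ℝ) / 1000)
      (by positivity)
    have h1 := good_ball S y hy hd x' r hg (r : ℝ) hr0 le_rfl
    have h2 : w ∈ Metric.closedBall (Completion.extension (fmap S y) (x' : Completion X))
        ((r : ℝ) / 80) := by
      rw [Metric.mem_closedBall, hext, dist_eq_norm]
      have h3 : w - fmap S y x' = (w - ((r : ℝ) / 4) • y i) - (fmap S y x' - ((r : ℝ) / 4) • y i) := by
        abel
      rw [h3]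
      refine (norm_sub_le _ _).trans ?_
      linarith
    obtain ⟨b, -, hb⟩ := h1 h2
    exact ⟨b, hb⟩
  · intro a R hR
    obtain ⟨x, hx⟩ := (Completion.denseRange_coe (α := X)).exists_dist_lt a (show 0 < R / 100 by positivity)
    obtain ⟨r, hr1, hr2⟩ := exists_rat_btwn (show R / 20 < R / 17 by linarith)
    have hr0 : (0 : ℝ) < (r : ℝ) := by linarith
    obtain ⟨z, hz⟩ := first_step S y hy x r (by exact_mod_cast hr0)
    obtain ⟨x', hx1, hg, -⟩ := hz 0 1 one_pos
    refine ⟨(x' : Completion X), ?_, ?_⟩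
    · rw [Metric.mem_closedBall]
      have h1 : dist (x' : Completion X) (x : Completion X) ≤ 16 * (r : ℝ) := by
        rw [Completion.dist_eq, dist_eq_norm]
        exact hx1
      have h2 := dist_triangle (x' : Completion X) (x : Completion X) a
      rw [dist_comm (x : Completion X) a] at h2
      linarith
    · intro t ht htR
      rcases le_or_gt t (r : ℝ) with h | h
      · exact (Metric.closedBall_subset_closedBall (by linarith)).trans
          (good_ball S y hy hd x' r hg t ht h)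
      · refine (Metric.closedBall_subset_closedBall ?_).trans
          ((good_ball S y hy hd x' r hg (r : ℝ) hr0 le_rfl).trans
            (Set.image_mono (Metric.closedBall_subset_closedBall h.le)))
        linarith

end Pool.Agent.BNC
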