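import Pool.Agent.BNC.Defs

/-!
# The James tree space: definitions

The dyadic tree is `List Bool`; `s` precedes `t` when `s <+: t`. The space `Fin0` is the space of
the finitely supported functions with the norm of the James tree space, and `JT` is its
completion.
-/

namespace Pool.Agent.BNC

/-- The segment of the dyadic tree between `s` and `u`: all `t` with `s <+: t` and `t <+: u`. -/
def seg (s u : List Bool) : Finset (List Bool) :=
  u.inits.toFinset.filter (fun t => s <+: t)

/-- The set whose supremum is the norm: over all finite families of pairwise disjoint segments. -/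
def jtSet (x : List Bool →₀ ℝ) : Set ℝ :=
  {a | ∃ (n : ℕ) (s u : Fin n → List Bool), (∀ i, s i <+: u i) ∧
    (∀ i j, i ≠ j → Disjoint (seg (s i) (u i)) (seg (s j) (u j))) ∧
    a = √(∑ i, (∑ t ∈ seg (s i) (u i), x t) ^ 2)}

/-- The norm of the James tree space. -/
noncomputable def jtNorm (x : List Bool →₀ ℝ) : ℝ := sSup (jtSet x)

/-- The finitely supported functions on the dyadic tree, with the norm of the James tree
space. -/
def Fin0 : Type := List Bool →₀ ℝ

noncomputable instance : AddCommGroup Fin0 := inferInstanceAs (AddCommGroup (List Bool →₀ ℝ))
noncomputable instance : Module ℝ Fin0 := inferInstanceAs (Module ℝ (List Bool →₀ ℝ))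
noncomputable instance : Norm Fin0 := ⟨fun x => jtNorm x⟩

/-- The dyadic node of a node: `t_{k :: e} = t_e 0^k 1`. -/
def tt : List ℕ → List Bool
  | [] => []
  | k :: e => tt e ++ (List.replicate k false ++ [true])

/-- The dyadic node `t` lies on the branch `t_τ 0 0 0 ...`. -/
def onBranch (τ : List ℕ) (t : List Bool) : Prop :=
  t <+: tt τ ++ List.replicate t.length false

end Pool.Agent.BNC
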