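import Pool.Agent.BNC.J0

/-!
# J1: the norm of the James tree space is a norm

PROOFS. `seg_mem`: `List.mem_inits`. `jtSet_zero_mem`: `n = 0`.
`jtSet_bdd`: the bound is `∑ t ∈ x.support, |x t|` : with `a_i = ∑ t ∈ S_i, |x t|` one has
`∑ a_i ^ 2 ≤ (∑ a_i) ^ 2` (`Finset.sum_sq_le_sq_sum` for nonnegative terms) and, the `S_i` being
pairwise disjoint, `∑ a_i = ∑ t ∈ ⋃ S_i, |x t| ≤ ∑ t ∈ x.support, |x t|` (`Finset.sum_biUnion`).
`jtNorm_add`: every element of `jtSet (x + y)` is at most `a + b` with `a ∈ jtSet x`,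
`b ∈ jtSet y` for the same family (Minkowski in `EuclideanSpace ℝ (Fin n)` or
`Real.Lp_add_le`), and `csSup_le`.
`jtNorm_smul`: every element of `jtSet (a • x)` is `|a|` times an element of `jtSet x`;
hence `jtNorm (a • x) ≤ |a| * jtNorm x`, and the converse from `x = a⁻¹ • (a • x)` (or
`Real.sSup_smul_of_nonneg` for the set `|a| • jtSet x`).
`seg_le`: the family with one segment (`n = 1`). `jtNorm_eq_zero`: `seg_le` with
`s = u = t` (`seg t t = {t}`). `jtNorm_single`: for a family, at most one `S_i` contains `t`, so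
`∑ i, (∑ ...) ^ 2 ≤ 1`.
-/

namespace Pool.Agent.BNC

theorem seg_mem (s u t : List Bool) : t ∈ seg s u ↔ s <+: t ∧ t <+: u := by
  simp [seg, List.mem_inits, and_comm]

theorem jtSet_zero_mem (x : List Bool →₀ ℝ) : (0 : ℝ) ∈ jtSet x :=
  ⟨0, Fin.elim0, Fin.elim0, fun i => i.elim0, fun i => i.elim0, by simp⟩

theorem jtSet_bdd (x : List Bool →₀ ℝ) : BddAbove (jtSet x) := by
  classical
  refine ⟨∑ t ∈ x.support, |x t|, ?_⟩
  rintro b ⟨n, s, u, -, hd, rfl⟩
  have h1 : ∑ i, (∑ t ∈ seg (s i) (u i), x t) ^ 2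
      ≤ (∑ i, ∑ t ∈ seg (s i) (u i), |x t|) ^ 2 := by
    calc ∑ i, (∑ t ∈ seg (s i) (u i), x t) ^ 2
        ≤ ∑ i, (∑ t ∈ seg (s i) (u i), |x t|) ^ 2 := by
          refine Finset.sum_le_sum fun i _ => ?_
          rw [← sq_abs]
          exact pow_le_pow_left₀ (abs_nonneg _) (Finset.abs_sum_le_sum_abs _ _) 2
      _ ≤ (∑ i, ∑ t ∈ seg (s i) (u i), |x t|) ^ 2 :=
          Finset.sum_sq_le_sq_sum_of_nonneg fun i _ => Finset.sum_nonneg fun t _ => abs_nonneg _
  have h0 : 0 ≤ ∑ i, ∑ t ∈ seg (s i) (u i), |x t| :=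
    Finset.sum_nonneg fun i _ => Finset.sum_nonneg fun t _ => abs_nonneg _
  have h2 : √(∑ i, (∑ t ∈ seg (s i) (u i), x t) ^ 2)
      ≤ ∑ i, ∑ t ∈ seg (s i) (u i), |x t| := by
    rw [← Real.sqrt_sq h0]
    exact Real.sqrt_le_sqrt h1
  refine h2.trans ?_
  have h3 : ∑ i, ∑ t ∈ seg (s i) (u i), |x t|
      = ∑ t ∈ Finset.univ.biUnion (fun i => seg (s i) (u i)), |x t| := by
    rw [Finset.sum_biUnion]
    intro i _ j _ hij
    exact hd i j hij
  rw [h3, ← Finset.sum_filter_of_ne (p := fun t => t ∈ x.support)]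
  · refine Finset.sum_le_sum_of_subset_of_nonneg ?_ fun t _ _ => abs_nonneg _
    intro t ht
    exact (Finset.mem_filter.1 ht).2
  · intro t _ ht
    rw [Finsupp.mem_support_iff]
    intro h
    exact ht (by rw [h, abs_zero])

private theorem BNCJ1_mink (n : ℕ) (A B : Fin n → ℝ) :
    √(∑ i, (A i + B i) ^ 2) ≤ √(∑ i, A i ^ 2) + √(∑ i, B i ^ 2) := by
  have h := norm_add_le (WithLp.toLp 2 A : EuclideanSpace ℝ (Fin n))
    (WithLp.toLp 2 B : EuclideanSpace ℝ (Fin n))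
  simpa [EuclideanSpace.norm_eq] using h

theorem jtNorm_add (x y : List Bool →₀ ℝ) : jtNorm (x + y) ≤ jtNorm x + jtNorm y := by
  refine csSup_le ⟨0, jtSet_zero_mem _⟩ ?_
  rintro b ⟨n, s, u, hs, hd, rfl⟩
  have h1 : ∀ i, ∑ t ∈ seg (s i) (u i), (x + y) t
      = ∑ t ∈ seg (s i) (u i), x t + ∑ t ∈ seg (s i) (u i), y t := by
    intro i
    rw [← Finset.sum_add_distrib]
    rfl
  simp only [h1]
  refine (BNCJ1_mink n _ _).trans ?_
  exact add_le_add (le_csSup (jtSet_bdd x) ⟨n, s, u, hs, hd, rfl⟩)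
    (le_csSup (jtSet_bdd y) ⟨n, s, u, hs, hd, rfl⟩)

private theorem BNCJ1_smul_le (a : ℝ) (x : List Bool →₀ ℝ) :
    jtNorm (a • x) ≤ |a| * jtNorm x := by
  refine csSup_le ⟨0, jtSet_zero_mem _⟩ ?_
  rintro b ⟨n, s, u, hs, hd, rfl⟩
  have h1 : ∀ i, ∑ t ∈ seg (s i) (u i), (a • x) t = a * ∑ t ∈ seg (s i) (u i), x t := by
    intro i
    rw [Finset.mul_sum]
    rfl
  have h2 : ∑ i, (∑ t ∈ seg (s i) (u i), (a • x) t) ^ 2
      = a ^ 2 * ∑ i, (∑ t ∈ seg (s i) (u i), x t) ^ 2 := by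
    rw [Finset.mul_sum]
    refine Finset.sum_congr rfl fun i _ => ?_
    rw [h1 i, mul_pow]
  rw [h2, Real.sqrt_mul (sq_nonneg a), Real.sqrt_sq_eq_abs]
  exact mul_le_mul_of_nonneg_left (le_csSup (jtSet_bdd x) ⟨n, s, u, hs, hd, rfl⟩)
    (abs_nonneg a)

private theorem BNCJ1_nonneg (x : List Bool →₀ ℝ) : 0 ≤ jtNorm x :=
  le_csSup (jtSet_bdd x) (jtSet_zero_mem x)

theorem jtNorm_smul (a : ℝ) (x : List Bool →₀ ℝ) : jtNorm (a • x) = |a| * jtNorm x := by
  refine le_antisymm (BNCJ1_smul_le a x) ?_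
  by_cases ha : a = 0
  · rw [ha, abs_zero, zero_mul]
    exact BNCJ1_nonneg _
  · have h1 := BNCJ1_smul_le a⁻¹ (a • x)
    rw [inv_smul_smul₀ ha, abs_inv] at h1
    have h2 : 0 < |a| := abs_pos.2 ha
    calc |a| * jtNorm x ≤ |a| * (|a|⁻¹ * jtNorm (a • x)) :=
          mul_le_mul_of_nonneg_left h1 h2.le
      _ = jtNorm (a • x) := by rw [← mul_assoc, mul_inv_cancel₀ h2.ne', one_mul]

/-- every segment sum is bounded by the norm -/
theorem seg_le (x : List Bool →₀ ℝ) (s u : List Bool) (h : s <+: u) :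
    |∑ t ∈ seg s u, x t| ≤ jtNorm x := by
  refine le_csSup (jtSet_bdd x) ⟨1, fun _ => s, fun _ => u, fun _ => h, ?_, ?_⟩
  · intro i j hij
    exact absurd (Subsingleton.elim i j) hij
  · simp [Real.sqrt_sq_eq_abs]

theorem jtNorm_nonneg (x : List Bool →₀ ℝ) : 0 ≤ jtNorm x :=
  BNCJ1_nonneg x

theorem jtNorm_eq_zero (x : List Bool →₀ ℝ) : jtNorm x = 0 ↔ x = 0 := by
  constructor
  · intro h
    ext t
    have h1 := seg_le x t t (List.prefix_refl t)
    have h2 : seg t t = {t} := by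
      ext v
      rw [seg_mem, Finset.mem_singleton]
      constructor
      · rintro ⟨h3, h4⟩
        exact h4.eq_of_length (le_antisymm h4.length_le h3.length_le)
      · rintro rfl
        exact ⟨List.prefix_refl _, List.prefix_refl _⟩
    rw [h2, Finset.sum_singleton, h] at h1
    simpa using h1
  · rintro rfl
    have h1 := jtNorm_smul 0 (0 : List Bool →₀ ℝ)
    rwa [zero_smul, abs_zero, zero_mul] at h1

theorem jtNorm_single (t : List Bool) : jtNorm (Finsupp.single t 1) ≤ 1 := by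
  classical
  refine csSup_le ⟨0, jtSet_zero_mem _⟩ ?_
  rintro b ⟨n, s, u, hs, hd, rfl⟩
  rw [Real.sqrt_le_one]
  have h1 : ∀ i, (∑ v ∈ seg (s i) (u i), (Finsupp.single t (1 : ℝ)) v) ^ 2
      = if t ∈ seg (s i) (u i) then 1 else 0 := by
    intro i
    have h2 : ∑ v ∈ seg (s i) (u i), (Finsupp.single t (1 : ℝ)) v
        = if t ∈ seg (s i) (u i) then 1 else 0 := by
      simp only [Finsupp.single_apply]
      rw [Finset.sum_ite_eq]
    rw [h2]
    split_ifs <;> simp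
  simp only [h1]
  rw [Finset.sum_ite, Finset.sum_const_zero, add_zero, Finset.sum_const, nsmul_eq_mul, mul_one]
  have h3 : (Finset.univ.filter (fun i => t ∈ seg (s i) (u i))).card ≤ 1 := by
    rw [Finset.card_le_one]
    intro i hi j hj
    by_contra hij
    have hi' := (Finset.mem_filter.1 hi).2
    have hj' := (Finset.mem_filter.1 hj).2
    exact Finset.disjoint_left.1 (hd i j hij) hi' hj'
  exact_mod_cast h3

theorem fin0_core : NormedSpace.Core ℝ Fin0 where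
  norm_nonneg := jtNorm_nonneg
  norm_smul := jtNorm_smul
  norm_triangle := jtNorm_add
  norm_eq_zero_iff := jtNorm_eq_zero

noncomputable instance : NormedAddCommGroup Fin0 := NormedAddCommGroup.ofCore fin0_core

noncomputable instance : NormedSpace ℝ Fin0 := NormedSpace.ofCore fin0_core

theorem fin0_norm_def (x : Fin0) : ‖x‖ = jtNorm x := rfl

/-- The James tree space. -/
abbrev JT : Type := UniformSpace.Completion Fin0

end Pool.Agent.BNC
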