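import Pool.Agent.BNC.J0

/-!
# J2: combinatorics of the nodes `tt σ = t_σ`

PROOFS. `tt_length`: induction. `onBranch_tt`: `tt σ` is empty or ends in `true`.
If `σ <:+ τ` then `tt σ <+: tt τ` (induction on `τ`), hence `onBranch τ (tt σ)`.
Conversely let `tt σ <+: tt τ ++ 0 0 ... 0`. If `σ = []` fine. Otherwise `tt σ` ends in
`true`, so its length is at most `(tt τ).length` (a `true` at a position beyond `tt τ` is
impossible), so `tt σ <+: tt τ`. Now show `tt σ <+: tt τ → σ <:+ τ` by induction on `τ`:
`τ = []`: `tt σ = []` so `σ = []` (length). `τ = k :: e`: `tt τ = tt e ++ 0^k ++ [1]`; if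
`tt σ` is all of `tt τ` then `tt σ = tt τ` and `σ = τ` by injectivity of `tt` (the last block of
zeros before the final `1` determines `k`; or: strong induction); otherwise `tt σ` is an initial
part of `tt e ++ 0^k`, ends in `1` or is empty, hence an initial part of `tt e`, and induction.
`onBranch_cons`: if `t.length ≤ cx τ + k` then the first `t.length` letters of
`tt τ ++ 0^k ++ [1] ++ ...` and of `tt τ ++ 0^...` agree. (`List.prefix_iff_eq_take` or
`List.prefix_of_prefix_length_le`.)
-/

namespace Pool.Agent.BNC

theorem tt_length (τ : List ℕ) : (tt τ).length = cx τ := by
  induction τ with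
  | nil => rfl
  | cons k e ih =>
    simp only [tt, cx, List.length_append, List.length_replicate, List.length_cons,
      List.length_nil, ih]
    omega

private theorem BNCJ2_last (k : ℕ) (e : List ℕ) : (tt (k :: e))[cx e + k]? = some true := by
  have h1 : tt (k :: e) = (tt e ++ List.replicate k false) ++ [true] := by
    simp only [tt, List.append_assoc]
  have h2 : (tt e ++ List.replicate k false).length = cx e + k := by
    rw [List.length_append, List.length_replicate, tt_length]
  rw [h1, ← h2, List.getElem?_concat_length]

private theorem BNCJ2_beyond (f : List ℕ) (j p : ℕ)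
    (h : (tt f ++ List.replicate j false)[p]? = some true) : p < cx f := by
  by_contra hp
  push Not at hp
  rw [List.getElem?_append_right (by rw [tt_length]; exact hp), List.getElem?_replicate] at h
  split_ifs at h
  simp at h

private theorem BNCJ2_pref {l₁ l₂ : List Bool} (h : l₁ <+: l₂) {i : ℕ} {a : Bool}
    (hi : l₁[i]? = some a) : l₂[i]? = some a := by
  obtain ⟨t, rfl⟩ := h
  have hlt : i < l₁.length := by
    by_contra hc
    push Not at hc
    rw [List.getElem?_eq_none hc] at hi
    exact absurd hi (by simp)
  rw [List.getElem?_append_left hlt]
  exact hi

private theorem BNCJ2_cx_mono {σ τ : List ℕ} (h : σ <:+ τ) : cx σ ≤ cx τ := by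
  induction τ with
  | nil =>
    rw [List.suffix_nil] at h
    rw [h]
  | cons k e ih =>
    rcases List.suffix_cons_iff.1 h with h1 | h1
    · rw [h1]
    · have := ih h1
      simp only [cx]
      omega

private theorem BNCJ2_tt_mono {σ τ : List ℕ} (h : σ <:+ τ) : tt σ <+: tt τ := by
  induction τ with
  | nil =>
    rw [List.suffix_nil] at h
    rw [h]
  | cons k e ih =>
    rcases List.suffix_cons_iff.1 h with h1 | h1
    · rw [h1]
    · exact (ih h1).trans (List.prefix_append _ _)

private theorem BNCJ2_main (τ : List ℕ) : ∀ (σ : List ℕ) (m : ℕ),
    tt σ <+: tt τ ++ List.replicate m false → σ <:+ τ := by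
  induction τ with
  | nil =>
    intro σ m h
    cases σ with
    | nil => exact List.nil_suffix
    | cons j f =>
      have h1 := BNCJ2_beyond [] m _ (BNCJ2_pref h (BNCJ2_last j f))
      simp [cx] at h1
  | cons k e ih =>
    intro σ m h
    cases σ with
    | nil => exact List.nil_suffix
    | cons j f =>
      have h1 := BNCJ2_beyond (k :: e) m _ (BNCJ2_pref h (BNCJ2_last j f))
      have h2 : cx (k :: e) = cx e + k + 1 := rfl
      rw [h2] at h1
      have hl : (tt (j :: f)).length = cx f + j + 1 := tt_length (j :: f)
      have hP : tt e ++ List.replicate k false <+: tt (k :: e) ++ List.replicate m false := by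
        refine List.IsPrefix.trans ?_ (List.prefix_append _ _)
        simp only [tt, ← List.append_assoc]
        exact List.prefix_append _ _
      by_cases hlt : cx f + j < cx e + k
      · have h3 : tt (j :: f) <+: tt e ++ List.replicate k false := by
          refine List.prefix_of_prefix_length_le h hP ?_
          rw [hl, List.length_append, List.length_replicate, tt_length]
          omega
        exact (ih _ _ h3).trans (List.suffix_cons _ _)
      · have heq : cx f + j = cx e + k := by omega
        have h4 : tt (j :: f) = tt (k :: e) := by
          have h5 : tt (j :: f) <+: tt (k :: e) := by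
            refine List.prefix_of_prefix_length_le h (List.prefix_append _ _) ?_
            rw [hl, tt_length, h2]
            omega
          refine h5.eq_of_length ?_
          rw [hl, tt_length, h2]
          omega
        have h6 : tt f ++ List.replicate j false = tt e ++ List.replicate k false := by
          simp only [tt, ← List.append_assoc] at h4
          exact List.append_cancel_right h4
        have h7 : f <:+ e := by
          refine ih f k ?_
          rw [← h6]
          exact List.prefix_append _ _
        cases e with
        | nil =>
          rw [List.suffix_nil] at h7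
          rw [h7] at heq
          have : j = k := by omega
          rw [h7, this]
        | cons i e' =>
          rcases List.suffix_cons_iff.1 h7 with h8 | h8
          · rw [h8] at heq
            have : j = k := by omega
            rw [h8, this]
          · exfalso
            have h9 : (tt f ++ List.replicate j false)[cx e' + i]? = some true := by
              rw [h6]
              exact BNCJ2_pref (List.prefix_append _ _) (BNCJ2_last i e')
            have h10 := BNCJ2_beyond f j _ h9
            have h11 := BNCJ2_cx_mono h8
            omega

private theorem BNCJ2_rep {a b : ℕ} (h : a ≤ b) (A : List Bool) :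
    A ++ List.replicate a false <+: A ++ List.replicate b false := by
  obtain ⟨c, rfl⟩ := Nat.exists_eq_add_of_le h
  rw [List.replicate_add, ← List.append_assoc]
  exact List.prefix_append _ _

private theorem BNCJ2_shift (A t : List Bool) (a b : ℕ)
    (h : t <+: A ++ List.replicate a false) (hb : t.length ≤ A.length + b) :
    t <+: A ++ List.replicate b false := by
  rcases le_total a b with hab | hab
  · exact h.trans (BNCJ2_rep hab A)
  · refine List.prefix_of_prefix_length_le h (BNCJ2_rep hab A) ?_
    rw [List.length_append, List.length_replicate]
    exact hb

theorem onBranch_tt (σ τ : List ℕ) : onBranch τ (tt σ) ↔ σ <:+ τ :=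
  ⟨fun h => BNCJ2_main τ σ _ h,
    fun h => (BNCJ2_tt_mono h).trans (List.prefix_append _ _)⟩

theorem onBranch_cons (k : ℕ) (τ : List ℕ) (t : List Bool) (h : t.length < cx (k :: τ)) :
    onBranch (k :: τ) t ↔ onBranch τ t := by
  have h2 : cx (k :: τ) = cx τ + k + 1 := rfl
  rw [h2] at h
  have hP : tt τ ++ List.replicate k false
      <+: tt (k :: τ) ++ List.replicate t.length false := by
    refine List.IsPrefix.trans ?_ (List.prefix_append _ _)
    simp only [tt, ← List.append_assoc]
    exact List.prefix_append _ _
  constructor
  · intro h3
    have h4 : t <+: tt τ ++ List.replicate k false := by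
      refine List.prefix_of_prefix_length_le h3 hP ?_
      rw [List.length_append, List.length_replicate, tt_length]
      omega
    exact BNCJ2_shift _ _ _ _ h4 (by omega)
  · intro h3
    have h4 : t <+: tt τ ++ List.replicate k false :=
      BNCJ2_shift _ _ _ _ h3 (by rw [tt_length]; omega)
    exact h4.trans hP

end Pool.Agent.BNC
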