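import Pool.Agent.BNC.J1
import Pool.Agent.BNC.J2

/-!
# J3: the system of functionals on the finitely supported functions

`phi τ x` is the sum of `x` over the branch `t_τ 0 0 0 ...`.
PROOFS. `phi_apply`: unfolding (`Finsupp.lsum_apply`, `Finsupp.sum`).
`phi_le`: let `n` be larger than all lengths of the elements of `x.support`,
`u = tt τ ++ replicate n false`; for `t ∈ x.support` one has `onBranch τ t ↔ t <+: u`
(`List.prefix_of_prefix_length_le` and `List.prefix_append`), so
`phi τ x = ∑ t ∈ seg [] u, x t` (`Finset.sum_subset` / `Finset.sum_filter`), and `seg_le`.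
`phi_single`: `onBranch_tt`. `phi_fin`: `N` = maximum of the lengths in `x.support`
(`Finset.sup`), `onBranch_cons`.
-/

namespace Pool.Agent.BNC

open Classical in
/-- the sum over the branch -/
noncomputable def phi (τ : List ℕ) : Fin0 →ₗ[ℝ] ℝ :=
  Finsupp.lsum ℝ (fun t : List Bool =>
    if onBranch τ t then (LinearMap.id : ℝ →ₗ[ℝ] ℝ) else 0)

open Classical in
theorem phi_apply (τ : List ℕ) (x : List Bool →₀ ℝ) :
    phi τ x = ∑ t ∈ x.support, if onBranch τ t then x t else 0 := by
  change (Finsupp.lsum ℝ (fun t : List Bool =>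
    if onBranch τ t then (LinearMap.id : ℝ →ₗ[ℝ] ℝ) else 0)) x = _
  rw [Finsupp.lsum_apply, Finsupp.sum]
  refine Finset.sum_congr rfl fun t _ => ?_
  split_ifs <;> rfl

private theorem J3_branch (τ : List ℕ) (t : List Bool) (n : ℕ) (h : t.length ≤ n) :
    onBranch τ t ↔ t <+: tt τ ++ List.replicate n false := by
  unfold onBranch
  have e : List.replicate n false =
      List.replicate t.length false ++ List.replicate (n - t.length) false := by
    rw [List.replicate_append_replicate]
    congr 1
    omega
  constructor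
  · intro h1
    rw [e, ← List.append_assoc]
    exact h1.trans (List.prefix_append _ _)
  · intro h1
    rw [e, ← List.append_assoc] at h1
    refine List.prefix_of_prefix_length_le h1 (List.prefix_append _ _) ?_
    simp

private theorem J3_le (τ : List ℕ) (x : List Bool →₀ ℝ) : |phi τ x| ≤ jtNorm x := by
  classical
  obtain ⟨n, hn⟩ : ∃ n : ℕ, ∀ t ∈ x.support, t.length ≤ n :=
    ⟨x.support.sup List.length, fun t ht => Finset.le_sup (f := List.length) ht⟩
  have e : phi τ x = ∑ t ∈ seg [] (tt τ ++ List.replicate n false), x t := by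
    rw [phi_apply]
    have e1 : ∀ t ∈ x.support, (if onBranch τ t then x t else 0) =
        if t ∈ seg [] (tt τ ++ List.replicate n false) then x t else 0 := by
      intro t ht
      have h1 := J3_branch τ t n (hn t ht)
      have h2 : t ∈ seg [] (tt τ ++ List.replicate n false) ↔ onBranch τ t := by
        rw [seg_mem, h1]
        exact ⟨fun h => h.2, fun h => ⟨List.nil_prefix, h⟩⟩
      by_cases h3 : onBranch τ t
      · rw [if_pos h3, if_pos (h2.2 h3)]
      · rw [if_neg h3, if_neg fun h4 => h3 (h2.1 h4)]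
    rw [Finset.sum_congr rfl e1, ← Finset.sum_filter]
    refine Finset.sum_subset (fun t ht => (Finset.mem_filter.1 ht).2) fun t ht ht' => ?_
    by_contra h0
    exact ht' (Finset.mem_filter.2 ⟨Finsupp.mem_support_iff.2 h0, ht⟩)
  rw [e]
  exact seg_le x [] _ List.nil_prefix

theorem phi_le (τ : List ℕ) (x : Fin0) : |phi τ x| ≤ ‖x‖ := J3_le τ x

theorem phi_single (σ τ : List ℕ) :
    phi τ (Finsupp.single (tt σ) (1 : ℝ) : List Bool →₀ ℝ) = if σ <:+ τ then 1 else 0 := by
  classical
  rw [phi_apply, Finsupp.support_single _ one_ne_zero, Finset.sum_singleton,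
    Finsupp.single_eq_same]
  by_cases h : σ <:+ τ
  · rw [if_pos h, if_pos ((onBranch_tt σ τ).2 h)]
  · rw [if_neg h, if_neg fun h1 => h ((onBranch_tt σ τ).1 h1)]

private theorem J3_fin (x : List Bool →₀ ℝ) :
    ∃ N, ∀ k τ, N < cx (k :: τ) → phi (k :: τ) x = phi τ x := by
  classical
  refine ⟨x.support.sup List.length, fun k τ h => ?_⟩
  rw [phi_apply, phi_apply]
  refine Finset.sum_congr rfl fun t ht => ?_
  have h1 : t.length ≤ x.support.sup List.length := Finset.le_sup (f := List.length) ht
  have h2 := onBranch_cons k τ t (lt_of_le_of_lt h1 h)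
  by_cases h3 : onBranch τ t
  · rw [if_pos h3, if_pos (h2.2 h3)]
  · rw [if_neg h3, if_neg fun h4 => h3 (h2.1 h4)]

theorem phi_fin (x : Fin0) : ∃ N, ∀ k τ, N < cx (k :: τ) → phi (k :: τ) x = phi τ x := J3_fin x

/-- the system of functionals on `Fin0` -/
noncomputable def sysFin0 : Sys Fin0 where
  φ := phi
  e σ := (Finsupp.single (tt σ) (1 : ℝ) : List Bool →₀ ℝ)
  φ_le := phi_le
  e_le σ := jtNorm_single (tt σ)
  φ_e := phi_single
  fin := phi_fin

end Pool.Agent.BNC
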