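import Pool.Agent.BNC.B

namespace Pool.Agent.BNC

variable {X : Type*} [NormedAddCommGroup X] [NormedSpace ℝ X]

theorem Sys.bdd (S : Sys X) (x : X) : Bdd (S.u x) := ⟨‖x‖, fun τ => S.φ_le τ x⟩

theorem F_lip (S : Sys X) {c : List (List ℕ)} (_h : Valid c) (x x' : X) :
    |F c (S.u x) - F c (S.u x')| ≤ ‖x - x'‖ := by
  have h1 : ∀ a b : X, ∀ τ, |S.u a τ - S.u b τ| ≤ ‖a - b‖ := by
    intro a b τ
    have := S.φ_le τ (a - b)
    rwa [map_sub] at this
  rw [abs_le]
  constructor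
  · have := F_sub_le (c := c) (S.bdd x') (S.bdd x) (norm_nonneg (x' - x)) (h1 x' x)
    rw [norm_sub_rev] at this
    linarith
  · have := F_sub_le (c := c) (S.bdd x) (S.bdd x') (norm_nonneg (x - x')) (h1 x x')
    linarith

theorem nested (S : Sys X) {σ : List ℕ} {c : List (List ℕ)} (h : Valid (σ :: c)) (x : X)
    (hF : 0 < F (σ :: c) (S.u x)) : F c (S.u x) = (L c σ).toReal :=
  nested' h (S.bdd x) hF

theorem child_unique (S : Sys X) {σ σ' : List ℕ} {c : List (List ℕ)} (h : Valid (σ :: c))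
    (h' : Valid (σ' :: c)) (x : X) (hF : 0 < F (σ :: c) (S.u x))
    (hF' : 0 < F (σ' :: c) (S.u x)) : σ = σ' :=
  lab_inj h h' ((nested S h x hF).symm.trans (nested S h' x hF'))

/-- raw elements bound the depth function -/
theorem F_le_raw (S : Sys X) {c : List (List ℕ)} (_h : Valid c) (x : X) (τ : List ℕ)
    (hr : L c τ = ⊥) : F c (S.u x) ≤ val c (S.u x) τ :=
  F_le_raw' (S.bdd x) hr

/-- an active pin is not fresh -/
theorem cx_le_of_pos (S : Sys X) {σ : List ℕ} {c : List (List ℕ)} (h : Valid (σ :: c)) (x : X)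
    {N : ℕ} (hN : Cx N (S.u x)) (hF : 0 < F (σ :: c) (S.u x)) : cx σ ≤ N :=
  cx_le_of_val h hN (fun τ hτ => lt_of_lt_of_le hF (F_le_raw S h x τ hτ))

/-- if all raw elements have positive values then the cell is active -/
theorem F_pos_of_raw (S : Sys X) {σ : List ℕ} {c : List (List ℕ)} (h : Valid (σ :: c)) (x : X)
    {a : ℝ} (ha : 0 < a) (hr : ∀ τ, L (σ :: c) τ = ⊥ → a ≤ val (σ :: c) (S.u x) τ) :
    0 < F (σ :: c) (S.u x) := by
  obtain ⟨N, hN⟩ := S.fin x
  exact F_pos_of_raw' h (S.bdd x) (N := N) hN (fun τ hτ => lt_of_lt_of_le ha (hr τ hτ))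

end Pool.Agent.BNC
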