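import Mathlib

/-!
# Z1: the space `ℓ_1` is separable

PROOF. `lp.hasSum_single` : every `f` is the sum of `lp.single 1 i (f i)`, so the linear span of
the countable set `{lp.single 1 i 1}` is dense; the closure of the span of a countable
(separable) set is separable (`TopologicalSpace.IsSeparable.span`,
`Set.Countable.isSeparable`, `TopologicalSpace.IsSeparable.closure`,
`TopologicalSpace.isSeparable_univ_iff`).
-/

namespace Pool.Agent.BNC

theorem separable_lp1 :
    TopologicalSpace.SeparableSpace (lp (fun _ : ℕ => ℝ) 1) := by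
  have h1 : (1 : ENNReal) ≠ ⊤ := ENNReal.one_ne_top
  set S : Set (lp (fun _ : ℕ => ℝ) 1) := Set.range fun i : ℕ => lp.single 1 i (1 : ℝ) with hS
  have hSc : S.Countable := Set.countable_range _
  have h2 : TopologicalSpace.IsSeparable
      (closure ((Submodule.span ℝ S : Submodule ℝ (lp (fun _ : ℕ => ℝ) 1)) :
        Set (lp (fun _ : ℕ => ℝ) 1))) :=
    (hSc.isSeparable.span (R := ℝ)).closure
  rw [← TopologicalSpace.isSeparable_univ_iff]
  refine h2.mono ?_
  intro f _
  refine mem_closure_of_tendsto (lp.hasSum_single h1 f) (Filter.Eventually.of_forall fun s => ?_)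
  refine Submodule.sum_mem _ fun i _ => ?_
  have h3 : lp.single (E := fun _ : ℕ => ℝ) 1 i (f i) = (f i) • lp.single 1 i (1 : ℝ) := by
    rw [← lp.single_smul, smul_eq_mul, mul_one]
  rw [h3]
  exact Submodule.smul_mem _ _ (Submodule.subset_span ⟨i, rfl⟩)

end Pool.Agent.BNC
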